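import Mathlib
import Pool.Agent.Helper317.Atr.Defs

/-!
Countable abelian groups inside a structure for second-order arithmetic, the two test statements
(a) and (b) for torsion groups, and `Π¹₁` comprehension.
-/

namespace Pool.Agent.W941.UL

open Pool.Agent.Helper617.RM Pool.Agent.Helper317.Atr

universe u

variable (N : L2Structure.{u})

/-- The data of a countable abelian group: the carrier, the addition, the inverse and the
identity. Only the values of the operations on the carrier matter. -/
structure Grp where
  D : Set N.M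
  add : N.M → N.M → N.M
  neg : N.M → N.M
  zero : N.M

/-- `G` is an abelian group, and it exists in the structure: the carrier and the graphs of the
operations are sets of the structure. -/
structure IsAbGrp (G : Grp N) : Prop where
  memIn : G.D ∈ N.Sets
  addIn : {r | ∃ x ∈ G.D, ∃ y ∈ G.D, r = N.pair (N.pair x y) (G.add x y)} ∈ N.Sets
  negIn : {r | ∃ x ∈ G.D, r = N.pair x (G.neg x)} ∈ N.Sets
  add_mem : ∀ x ∈ G.D, ∀ y ∈ G.D, G.add x y ∈ G.D
  neg_mem : ∀ x ∈ G.D, G.neg x ∈ G.D
  zero_mem : G.zero ∈ G.D
  assoc : ∀ x ∈ G.D, ∀ y ∈ G.D, ∀ z ∈ G.D, G.add (G.add x y) z = G.add x (G.add y z)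
  comm : ∀ x ∈ G.D, ∀ y ∈ G.D, G.add x y = G.add y x
  zero_add : ∀ x ∈ G.D, G.add G.zero x = x
  neg_add : ∀ x ∈ G.D, G.add (G.neg x) x = G.zero

/-- `n · x = y` in `G`: there is a function `s` of the structure with `s 0 = 0`,
`s (i + 1) = s i + x` and `s n = y`. -/
def IsMult (G : Grp N) (n x y : N.M) : Prop :=
  ∃ s : N.M → N.M, FunIn N s ∧ s N.zero = G.zero ∧
    (∀ i, s (N.add i N.one) = G.add (s i) x) ∧ s n = y

/-- `G` is torsion: for each `x` in `G` there is a positive number `n` with `n · x = 0`. -/
def IsTorsion (G : Grp N) : Prop := ∀ x ∈ G.D, ∃ n, n ≠ N.zero ∧ IsMult N G n x G.zero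

/-- `f` is an isomorphism from `G` to `H`, and it exists in the structure. -/
structure IsIso (G H : Grp N) (f : N.M → N.M) : Prop where
  memIn : {r | ∃ x ∈ G.D, r = N.pair x (f x)} ∈ N.Sets
  maps : ∀ x ∈ G.D, f x ∈ H.D
  hom : ∀ x ∈ G.D, ∀ y ∈ G.D, f (G.add x y) = H.add (f x) (f y)
  inj : ∀ x ∈ G.D, ∀ y ∈ G.D, f x = f y → x = y
  surj : ∀ z ∈ H.D, ∃ x ∈ G.D, f x = z

/-- `G` and `H` are isomorphic in the sense of the structure. -/
def Isom (G H : Grp N) : Prop := ∃ f, IsIso N G H f

open Classical in
/-- The first component of a pair. -/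
noncomputable def fst (p : N.M) : N.M := if h : ∃ x, ∃ y, p = N.pair x y then h.choose else p

open Classical in
/-- The second component of a pair. -/
noncomputable def snd (p : N.M) : N.M := if h : ∃ y, ∃ x, p = N.pair x y then h.choose else p

/-- The direct sum of `G` and `H`: the elements are the pairs. -/
noncomputable def dsum (G H : Grp N) : Grp N where
  D := {p | ∃ x ∈ G.D, ∃ y ∈ H.D, p = N.pair x y}
  add p q := N.pair (G.add (fst N p) (fst N q)) (H.add (snd N p) (snd N q))
  neg p := N.pair (G.neg (fst N p)) (H.neg (snd N p))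
  zero := N.pair G.zero H.zero

/-- `G` is a direct summand of `H`. -/
def IsSummand (G H : Grp N) : Prop := ∃ K : Grp N, IsAbGrp N K ∧ Isom N H (dsum N G K)

/-- Statement (a): for all countable torsion abelian groups `G` and `H`, if `G ⊕ G` and `H ⊕ H`
are isomorphic then `G` and `H` are isomorphic. -/
def StmtA : Prop := ∀ G H : Grp N, IsAbGrp N G → IsTorsion N G → IsAbGrp N H → IsTorsion N H →
  Isom N (dsum N G G) (dsum N H H) → Isom N G H

/-- Statement (b): for all countable torsion abelian groups `G` and `H`, if each of them is a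
direct summand of the other then they are isomorphic. -/
def StmtB : Prop := ∀ G H : Grp N, IsAbGrp N G → IsTorsion N G → IsAbGrp N H → IsTorsion N H →
  IsSummand N G H → IsSummand N H G → Isom N G H

/-- `Π¹₁` comprehension: for each arithmetical formula `θ(n, Y)` with number and set parameters
the set of all `n` such that `θ(n, Y)` holds for all sets `Y` is one of the sets of the
structure. -/
def Pi11Comp : Prop := ∀ (θ : OpForm N) (v : ℕ → N.M),
  {n | ∀ Y ∈ N.Sets, θ.Holds Y (cons n v)} ∈ N.Sets

end Pool.Agent.W941.UL
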