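import Mathlib
import Pool.Agent.Helper317.Atr.AY
import Pool.Agent.W941.TH.Sums

/-! Definable functions and relations over models of arithmetical comprehension, and coded
groups. -/

namespace Pool.Agent.W941.UL

open Pool.Agent.Helper617.RM Pool.Agent.Helper317.Atr

universe u

set_option linter.unusedSectionVars false
set_option linter.unusedVariables false

variable {N : L2Structure.{u}} [IsModelRCA0 N] [Sig1 N]

/-- definable functions of the context -/
def AG (g : Ctx N → N.M) : Prop := D0 (fun w => w 0 = g (tail w))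

theorem AG.tm {g : Ctx N → N.M} (hg : Tm g) : AG g := D0.eq (Tm.var 0) hg.tail

theorem AG.var (i : ℕ) : AG (fun v : Ctx N => v i) := AG.tm (Tm.var i)

theorem AG.const (a : N.M) : AG (fun _ : Ctx N => a) := AG.tm (Tm.const a)

theorem AG.comp {g : Ctx N → N.M} (hg : AG g) {c : Ctx N → Ctx N} (hc : CM c) :
    AG (fun v => g (c v)) :=
  D0.comp (R := fun w => w 0 = g (tail w)) hg (g := fun w => cons (w 0) (c (tail w)))
    (CM.cons (Tm.var 0) (fun i => (hc i).tail))

theorem AG.tail {g : Ctx N → N.M} (hg : AG g) : AG (fun v => g (Helper617.RM.tail v)) :=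
  hg.comp CM.tail

theorem D0.substA {P : Ctx N → N.M → Prop} (hP : D0 (fun w => P (tail w) (w 0)))
    {g : Ctx N → N.M} (hg : AG g) : D0 (fun v => P v (g v)) := by
  refine D0.congr (R := fun v => ∃ w, w = g v ∧ P v w) ?_ fun v => by simp
  exact D0.ex (D0.and hg hP)

theorem D0.app1 {R : N.M → Prop} (hR : D0 (fun v => R (v 0))) {g : Ctx N → N.M} (hg : AG g) :
    D0 (fun v => R (g v)) := D0.substA (P := fun _ x => R x) hR hg

theorem D0.app2 {R : N.M → N.M → Prop} (hR : D0 (fun v => R (v 0) (v 1)))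
    {g g' : Ctx N → N.M} (hg : AG g) (hg' : AG g') : D0 (fun v => R (g v) (g' v)) := by
  refine D0.substA (P := fun v x => R x (g' v)) ?_ hg
  refine D0.substA (P := fun v x => R (v 0) x) ?_ hg'.tail
  exact D0.comp (R := fun v => R (v 0) (v 1)) hR (g := fun v => cons (v 1) (cons (v 0) v))
    (CM.cons (Tm.var 1) (CM.cons (Tm.var 0) CM.id))

theorem D0.app3 {R : N.M → N.M → N.M → Prop} (hR : D0 (fun v => R (v 0) (v 1) (v 2)))
    {g g' g'' : Ctx N → N.M} (hg : AG g) (hg' : AG g') (hg'' : AG g'') :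
    D0 (fun v => R (g v) (g' v) (g'' v)) := by
  refine D0.substA (P := fun v x => R x (g' v) (g'' v)) ?_ hg
  refine D0.substA (P := fun v x => R (v 0) x (g'' (tail v))) ?_ hg'.tail
  refine D0.substA (P := fun v x => R (v 1) (v 0) x) ?_ hg''.tail.tail
  exact D0.comp (R := fun v => R (v 0) (v 1) (v 2)) hR
    (g := fun v => cons (v 2) (cons (v 1) (cons (v 0) v)))
    (CM.cons (Tm.var 2) (CM.cons (Tm.var 1) (CM.cons (Tm.var 0) CM.id)))

theorem AG.op1 {f : N.M → N.M} (hf : D0 (fun v => v 1 = f (v 0)))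
    {g : Ctx N → N.M} (hg : AG g) : AG (fun v => f (g v)) :=
  D0.app2 (R := fun a b => b = f a) hf hg.tail (AG.var 0)

theorem AG.op2 {f : N.M → N.M → N.M} (hf : D0 (fun v => v 2 = f (v 0) (v 1)))
    {g g' : Ctx N → N.M} (hg : AG g) (hg' : AG g') : AG (fun v => f (g v) (g' v)) :=
  D0.app3 (R := fun a b c => c = f a b) hf hg.tail hg'.tail (AG.var 0)

theorem AG.add {g g' : Ctx N → N.M} (hg : AG g) (hg' : AG g') : AG (fun v => g v + g' v) :=
  AG.op2 (f := fun a b => a + b) (D0.eq (Tm.var 2) ((Tm.var 0).add (Tm.var 1))) hg hg'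

theorem AG.mul {g g' : Ctx N → N.M} (hg : AG g) (hg' : AG g') : AG (fun v => g v * g' v) :=
  AG.op2 (f := fun a b => a * b) (D0.eq (Tm.var 2) ((Tm.var 0).mul (Tm.var 1))) hg hg'

theorem AG.pr {g g' : Ctx N → N.M} (hg : AG g) (hg' : AG g') :
    AG (fun v => Helper617.RM.pr (g v) (g' v)) :=
  AG.op2 (f := fun a b => Helper617.RM.pr a b) (D0.eq (Tm.var 2) ((Tm.var 0).pr (Tm.var 1))) hg hg'

theorem D0.eqA {g g' : Ctx N → N.M} (hg : AG g) (hg' : AG g') : D0 (fun v => g v = g' v) :=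
  D0.app2 (R := fun a b => a = b) (D0.eq (Tm.var 0) (Tm.var 1)) hg hg'

theorem D0.ltA {g g' : Ctx N → N.M} (hg : AG g) (hg' : AG g') : D0 (fun v => g v < g' v) :=
  D0.app2 (R := fun a b => a < b) (D0.lt (Tm.var 0) (Tm.var 1)) hg hg'

theorem D0.leA {g g' : Ctx N → N.M} (hg : AG g) (hg' : AG g') : D0 (fun v => g v ≤ g' v) :=
  D0.app2 (R := fun a b => a ≤ b) (D0.le (Tm.var 0) (Tm.var 1)) hg hg'

theorem D0.dvdA {g g' : Ctx N → N.M} (hg : AG g) (hg' : AG g') : D0 (fun v => g v ∣ g' v) :=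
  D0.app2 (R := fun a b => a ∣ b) (D0.dvd (Tm.var 0) (Tm.var 1)) hg hg'

theorem D0.memA {g : Ctx N → N.M} (hg : AG g) {X : Set N.M} (hX : X ∈ N.Sets) :
    D0 (fun v => g v ∈ X) := D0.app1 (R := fun a => a ∈ X) (D0.mem (Tm.var 0) hX) hg

theorem D0.MemCA {g g' : Ctx N → N.M} (hg : AG g) (hg' : AG g') :
    D0 (fun v => MemC (g v) (g' v)) :=
  D0.app2 (R := fun a b => MemC a b) (MemC_D0 (Tm.var 0) (Tm.var 1)) hg hg'

/-- a function with a definable graph is definable -/
theorem AG.graph {f : N.M → N.M} (hf : D0 (fun v => v 1 = f (v 0))) {g : Ctx N → N.M}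
    (hg : AG g) : AG (fun v => f (g v)) := AG.op1 hf hg

open Classical in
theorem AG.ite {P : Ctx N → Prop} (hP : D0 P) {g g' : Ctx N → N.M} (hg : AG g) (hg' : AG g') :
    AG (fun v => if P v then g v else g' v) := by
  refine D0.congr (R := fun w : Ctx N => (P (Helper617.RM.tail w) ∧
    w 0 = g (Helper617.RM.tail w)) ∨ (¬ P (Helper617.RM.tail w) ∧
      w 0 = g' (Helper617.RM.tail w))) ?_ ?_
  · exact D0.or (D0.and hP.tail hg) (D0.and hP.tail.not hg')
  · intro w
    by_cases h : P (Helper617.RM.tail w)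
    · simp [h]
    · simp [h]

/-! ### coded groups -/

/-- `α` is coded in the structure -/
class Cod (N : L2Structure.{u}) [IsModelRCA0 N] (α : Type u) [AddCommGroup α] [Module N.M α] where
  code : α → N.M
  dc : N.M → α
  dc_code : ∀ a, dc (code a) = a
  cdD : D0 (fun v : Ctx N => v 1 = code (dc (v 0)))
  addD : D0 (fun v : Ctx N => v 2 = code (dc (v 0) + dc (v 1)))
  negD : D0 (fun v : Ctx N => v 1 = code (- dc (v 0)))
  smulD : D0 (fun v : Ctx N => v 2 = code (v 0 • dc (v 1)))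

section cod

variable (N) in
/-- the code -/
def cd {α : Type u} [AddCommGroup α] [Module N.M α] [Cod N α] (a : α) : N.M := Cod.code a

variable (N) in
/-- the element with a given code -/
def dc (α : Type u) [AddCommGroup α] [Module N.M α] [Cod N α] (x : N.M) : α := Cod.dc x

variable {α : Type u} [AddCommGroup α] [Module N.M α] [Cod N α]
variable {β : Type u} [AddCommGroup β] [Module N.M β] [Cod N β]

@[simp] theorem dc_cd (a : α) : dc N α (cd N a) = a := Cod.dc_code a

theorem cd_inj {a b : α} (h : cd N a = cd N b) : a = b := by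
  rw [← dc_cd (N := N) a, h, dc_cd]

/-- definable functions with values in `α` -/
def AA (g : Ctx N → α) : Prop := AG (fun v => cd N (g v))

theorem AA.cd {g : Ctx N → α} (hg : AA g) : AG (fun v => cd N (g v)) := hg

theorem AA.dc {g : Ctx N → N.M} (hg : AG g) : AA (fun v => dc N α (g v)) :=
  AG.op1 (f := fun x => UL.cd N (UL.dc N α x)) (Cod.cdD (N := N) (α := α)) hg

theorem AA.const (a : α) : AA (fun _ : Ctx N => a) := AG.const _

theorem AA.tail {g : Ctx N → α} (hg : AA g) : AA (fun v => g (Helper617.RM.tail v)) :=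
  AG.tail (g := fun v => UL.cd N (g v)) hg

theorem AA.comp {g : Ctx N → α} (hg : AA g) {c : Ctx N → Ctx N} (hc : CM c) :
    AA (fun v => g (c v)) := AG.comp (g := fun v => UL.cd N (g v)) hg hc

theorem AA.add {g g' : Ctx N → α} (hg : AA g) (hg' : AA g') : AA (fun v => g v + g' v) := by
  have := AG.op2 (f := fun x y => UL.cd N (UL.dc N α x + UL.dc N α y))
    (Cod.addD (N := N) (α := α)) hg.cd hg'.cd
  simp only [dc_cd] at this
  exact this

theorem AA.neg {g : Ctx N → α} (hg : AA g) : AA (fun v => - g v) := by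
  have := AG.op1 (f := fun x => UL.cd N (- UL.dc N α x)) (Cod.negD (N := N) (α := α)) hg.cd
  simp only [dc_cd] at this
  exact this

theorem AA.sub {g g' : Ctx N → α} (hg : AA g) (hg' : AA g') : AA (fun v => g v - g' v) := by
  simpa only [sub_eq_add_neg] using hg.add hg'.neg

theorem AA.smul {k : Ctx N → N.M} (hk : AG k) {g : Ctx N → α} (hg : AA g) :
    AA (fun v => k v • g v) := by
  have := AG.op2 (f := fun x y => UL.cd N (x • UL.dc N α y)) (Cod.smulD (N := N) (α := α))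
    hk hg.cd
  simp only [dc_cd] at this
  exact this

theorem AA.zero : AA (fun _ : Ctx N => (0 : α)) := AA.const 0

theorem D0.aeq {g g' : Ctx N → α} (hg : AA g) (hg' : AA g') : D0 (fun v => g v = g' v) :=
  (D0.eqA hg.cd hg'.cd).congr fun v => ⟨cd_inj, fun h => by rw [h]⟩

theorem D0.aall {P : Ctx N → α → Prop} (hP : D0 (fun w => P (tail w) (UL.dc N α (w 0)))) :
    D0 (fun v => ∀ a, P v a) := by
  refine D0.congr (R := fun v => ∀ x, P v (UL.dc N α x)) (D0.all hP) fun v =>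
    ⟨fun h a => by have := h (cd N a); rwa [dc_cd] at this, fun h x => h _⟩

theorem D0.aex {P : Ctx N → α → Prop} (hP : D0 (fun w => P (tail w) (UL.dc N α (w 0)))) :
    D0 (fun v => ∃ a, P v a) := by
  refine D0.congr (R := fun v => ∃ x, P v (UL.dc N α x)) (D0.ex hP) fun v =>
    ⟨fun ⟨x, h⟩ => ⟨_, h⟩, fun ⟨a, h⟩ => ⟨cd N a, by rwa [dc_cd]⟩⟩

/-- definable unary predicates -/
def P1 (P : α → Prop) : Prop := D0 (fun v : Ctx N => P (UL.dc N α (v 0)))

/-- definable relations -/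
def P2 (P : α → β → Prop) : Prop := D0 (fun v : Ctx N => P (UL.dc N α (v 0)) (UL.dc N β (v 1)))

theorem P1.app {P : α → Prop} (hP : P1 (N := N) P) {g : Ctx N → α} (hg : AA g) :
    D0 (fun v => P (g v)) := by
  have := D0.app1 (R := fun x => P (UL.dc N α x)) hP hg.cd
  simpa only [dc_cd] using this

theorem P2.app {P : α → β → Prop} (hP : P2 (N := N) P) {g : Ctx N → α} (hg : AA g)
    {g' : Ctx N → β} (hg' : AA g') : D0 (fun v => P (g v) (g' v)) := by
  have := D0.app2 (R := fun x y => P (UL.dc N α x) (UL.dc N β y)) hP hg.cd hg'.cd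
  simpa only [dc_cd] using this

end cod

/-! ### entries of sequences -/

variable (N) in
/-- a total function that gives the entries of sequences -/
structure Entf (e : N.M → N.M → N.M) : Prop where
  def' : D0 (fun v => v 2 = e (v 0) (v 1))
  get : ∀ (g : N.M → N.M), D0 (fun v => v 1 = g (v 0)) → ∀ n, ∃ s, ∀ i, i < n → e s i = g i

theorem exists_entf (N : L2Structure.{u}) [IsModelRCA0 N] [Sig1 N] : ∃ e, Entf N e := by
  classical
  have hun : ∀ s i : N.M, ∃ c, (∃ z, MemC (pr i z) s) → (MemC (pr i c) s ∧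
      ∀ z, z < c → ¬ MemC (pr i z) s) := by
    intro s i
    by_cases h : ∃ z, MemC (pr i z) s
    · obtain ⟨z, hz⟩ := h
      obtain ⟨c, -, h1, h2⟩ := lnp_D0 (P := fun c => MemC (pr i c) s)
        (MemC_D0 ((Tm.const i).pr (Tm.var 0)) (Tm.const s)) z hz
      exact ⟨c, fun _ => ⟨h1, h2⟩⟩
    · exact ⟨0, fun h' => absurd h' h⟩
  choose c hc using hun
  refine ⟨fun s i => if ∃ z, MemC (pr i z) s then c s i else 0, ?_, fun g hg n => ?_⟩
  · refine D0.congr (R := fun v => ((∃ z, MemC (pr (v 1) z) (v 0)) ∧ MemC (pr (v 1) (v 2)) (v 0) ∧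
      ∀ z, z < v 2 → ¬ MemC (pr (v 1) z) (v 0)) ∨ ((¬ ∃ z, MemC (pr (v 1) z) (v 0)) ∧ v 2 = 0))
      ?_ ?_
    · refine D0.or (D0.and (D0.ex ?_) (D0.and ?_ (D0.all (D0.imp ?_ ?_)))) (D0.and
        (D0.ex ?_).not (D0.eq (Tm.var 2) Tm.zero))
      · exact MemC_D0 ((Tm.var 2).pr (Tm.var 0)) (Tm.var 1)
      · exact MemC_D0 ((Tm.var 1).pr (Tm.var 2)) (Tm.var 0)
      · exact D0.lt (Tm.var 0) (Tm.var 3)
      · exact (MemC_D0 ((Tm.var 2).pr (Tm.var 0)) (Tm.var 1)).not
      · exact MemC_D0 ((Tm.var 2).pr (Tm.var 0)) (Tm.var 1)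
    · intro v
      by_cases h : ∃ z, MemC (pr (v 1) z) (v 0)
      · simp only [h, if_true, not_true, false_and, or_false, true_and]
        obtain ⟨h1, h2⟩ := hc (v 0) (v 1) h
        constructor
        · rintro ⟨h3, h4⟩
          rcases lt_trichotomy (v 2) (c (v 0) (v 1)) with h5 | h5 | h5
          · exact absurd h3 (h2 _ h5)
          · exact h5
          · exact absurd h1 (h4 _ h5)
        · intro h3
          rw [h3]
          exact ⟨h1, h2⟩
      · simp only [h, if_false, false_and, false_or, not_false_iff, true_and]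
  · obtain ⟨B, hB⟩ := bounding (Q := fun i y => y = g i) (by
      exact D0.rel (R := fun a b => b = g a) hg (Tm.var 1) (Tm.var 0)) n fun x _ => ⟨_, rfl⟩
    obtain ⟨u, hu1, hu2⟩ := exists_isC (P := fun r => ∃ i, i < n ∧ ∃ z, z = g i ∧ r = pr i z) (by
      refine D0.bex (Tm.const n) (D0.ex (D0.and ?_ ?_))
      · exact D0.rel (R := fun a b => b = g a) hg (Tm.var 1) (Tm.var 0)
      · exact D0.eq (Tm.var 2) ((Tm.var 1).pr (Tm.var 0))) (b := pr n B) (by
      rintro r ⟨i, hi, z, hz, rfl⟩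
      obtain ⟨k, hk, hk2⟩ := hB i hi
      rw [hz, ← hk2]
      exact pr_lt_pr (add_lt_add hi hk))
    refine ⟨u, fun i hi => ?_⟩
    have h1 : MemC (pr i (g i)) u := (hu2 _).2 ⟨i, hi, _, rfl, rfl⟩
    have hex : ∃ z, MemC (pr i z) u := ⟨_, h1⟩
    simp only [hex, if_true]
    obtain ⟨h2, -⟩ := hc u i hex
    obtain ⟨i', hi', z', hz', he⟩ := (hu2 _).1 h2
    obtain ⟨rfl, rfl⟩ := pr_inj he
    exact hz'

/-- minimal elements -/
theorem lnp {P : N.M → Prop} (hP : D0 (fun v => P (v 0))) {a : N.M} (ha : P a) :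
    ∃ m, P m ∧ ∀ m', m' < m → ¬ P m' := by
  obtain ⟨m, _, h1, h2⟩ := lnp_D0 hP a ha
  exact ⟨m, h1, h2⟩

/-- least elements of well-orderings -/
theorem wo_least {T : Set N.M} {R : N.M → N.M → Prop} (hW : IsWellOrd N T R) {Z : N.M → Prop}
    (hZ : D0 (fun v => Z (v 0))) {a : N.M} (ha : a ∈ T) (hza : Z a) :
    ∃ m, m ∈ T ∧ Z m ∧ ∀ x, x ∈ T → Z x → R m x := by
  by_contra hcon
  push Not at hcon
  have hR : D0 (fun v => R (v 0) (v 1)) := D0.of_codeRel hW.rel
  obtain ⟨f, hf, hf0, hf1, hf2⟩ := Helper617.RM.dc (N := N) (Inv := fun x => x ∈ T ∧ Z x)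
    (D0.and (D0.mem (Tm.var 0) hW.mem) hZ) (St := fun x y => R y x ∧ ¬ y = x)
    (D0.and (hR.rel (Tm.var 1) (Tm.var 0)) (D0.eq (Tm.var 1) (Tm.var 0)).not) (by
      rintro x ⟨hx, hzx⟩
      obtain ⟨y, hy, hzy, hR⟩ := hcon x hx hzx
      refine ⟨y, ⟨(hW.total x hx y hy).resolve_left hR, fun h => ?_⟩, hy, hzy⟩
      exact hR (by rw [h]; exact hW.refl x hx)) ⟨ha, hza⟩
  refine hW.noDesc ⟨f, codeRel_mem_D0 (R := fun x y => y = f x) hf, fun i => hf2 i⟩

/-- transfinite induction -/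
theorem wo_ind {T : Set N.M} {R : N.M → N.M → Prop} (hW : IsWellOrd N T R) {Z : N.M → Prop}
    (hZ : D0 (fun v => Z (v 0)))
    (h : ∀ x, x ∈ T → (∀ y, y ∈ T → R y x → y ≠ x → Z y) → Z x) : ∀ x, x ∈ T → Z x := by
  by_contra hcon
  push Not at hcon
  obtain ⟨a, ha, hza⟩ := hcon
  obtain ⟨m, hm, hzm, hmin⟩ := wo_least hW (Z := fun x => ¬ Z x) hZ.not ha hza
  refine hzm (h m hm fun y hy h1 h2 => ?_)
  by_contra hzy
  exact h2 (hW.antisymm y m h1 (hmin y hy hzy))

end Pool.Agent.W941.UL
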