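import Mathlib

/-! The algebra of one extension step. -/

namespace Pool.Agent.W941.UL

universe u v

section alg

variable {R : Type u} [CommSemiring R] {α : Type v} [AddCommGroup α] [Module R α]
variable {β : Type v} [AddCommGroup β] [Module R β]

/-- `k` is invertible modulo `p` -/
def Bez (p k : R) : Prop := ∃ t B B' : R, t * k + B * p = 1 + B' * p

variable (R) in
/-- subgroups -/
structure Sg (S : α → Prop) : Prop where
  zero : S 0
  add : ∀ {a b}, S a → S b → S (a + b)
  neg : ∀ {a}, S a → S (-a)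
  smul : ∀ (k : R) {a}, S a → S (k • a)

theorem Sg.sub {S : α → Prop} (h : Sg R S) {a b : α} (ha : S a) (hb : S b) : S (a - b) := by
  rw [sub_eq_add_neg]; exact h.add ha (h.neg hb)

variable (R) in
/-- partial isomorphisms between subgroups -/
structure PI (K : α → β → Prop) : Prop where
  zero : K 0 0
  add : ∀ {a b a' b'}, K a b → K a' b' → K (a + a') (b + b')
  neg : ∀ {a b}, K a b → K (-a) (-b)
  smul : ∀ (k : R) {a b}, K a b → K (k • a) (k • b)
  inj1 : ∀ {b}, K 0 b → b = 0
  inj2 : ∀ {a}, K a 0 → a = 0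

variable {K : α → β → Prop}

theorem PI.sub (h : PI R K) {a b a' b'} (h1 : K a b) (h2 : K a' b') : K (a - a') (b - b') := by
  rw [sub_eq_add_neg, sub_eq_add_neg]; exact h.add h1 (h.neg h2)

theorem PI.symm (h : PI R K) : PI R (fun b a => K a b) :=
  ⟨h.zero, fun h1 h2 => h.add h1 h2, fun h1 => h.neg h1, fun k _ _ h1 => h.smul k h1,
    fun h1 => h.inj2 h1, fun h1 => h.inj1 h1⟩

theorem PI.fun1 (h : PI R K) {a b b'} (h1 : K a b) (h2 : K a b') : b = b' := by
  have := h.sub h1 h2
  rw [sub_self] at this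
  exact sub_eq_zero.1 (h.inj1 this)

theorem PI.fun2 (h : PI R K) {a a' b} (h1 : K a b) (h2 : K a' b) : a = a' := by
  have := h.sub h1 h2
  rw [sub_self] at this
  exact sub_eq_zero.1 (h.inj2 this)

variable (R) in
/-- adding one element to a partial isomorphism -/
def Kx (K : α → β → Prop) (u : α) (h : β) (a : α) (b : β) : Prop :=
  ∃ a0 b0, ∃ k : R, K a0 b0 ∧ a = a0 + k • u ∧ b = b0 + k • h

theorem reflect {S : α → Prop} (hS : Sg R S) {p k : R} (hb : Bez p k) {w : α}
    (h1 : S (k • w)) (h2 : S (p • w)) : S w := by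
  obtain ⟨t, B, B', h⟩ := hb
  have h3 : w = t • (k • w) + B • (p • w) - B' • (p • w) := by
    have := congrArg (fun r => r • w) h
    simp only [add_smul, one_smul, mul_smul] at this
    rw [this]; abel
  rw [h3]
  exact hS.sub (hS.add (hS.smul t h1) (hS.smul B h2)) (hS.smul B' h2)

theorem Kx_bez (hK : PI R K) {u : α} {h : β} {p k : R} (hpp : K (p • u) (p • h))
    (hb : Bez p k) {a0 : α} {b0 : β} (h0 : K a0 b0) :
    ∃ t : R, ∃ a1 b1, K a1 b1 ∧ t • (a0 + k • u) = u + a1 ∧ t • (b0 + k • h) = h + b1 := by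
  obtain ⟨t, B, B', e⟩ := hb
  refine ⟨t, t • a0 + B' • (p • u) - B • (p • u), t • b0 + B' • (p • h) - B • (p • h),
    hK.sub (hK.add (hK.smul t h0) (hK.smul B' hpp)) (hK.smul B hpp), ?_, ?_⟩
  · have := congrArg (fun r => r • u) e
    simp only [add_smul, one_smul, mul_smul] at this
    have h2 : t • k • u = u + B' • p • u - B • p • u := by rw [← this]; abel
    rw [smul_add, h2]; abel
  · have := congrArg (fun r => r • h) e
    simp only [add_smul, one_smul, mul_smul] at this
    have h2 : t • k • h = h + B' • p • h - B • p • h := by rw [← this]; abel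
    rw [smul_add, h2]; abel

theorem Kx_dvd (hK : PI R K) {u : α} {h : β} {p k k' : R} (hpp : K (p • u) (p • h))
    (hk : k = p * k') {a0 : α} {b0 : β} (h0 : K a0 b0) : K (a0 + k • u) (b0 + k • h) := by
  rw [hk, mul_comm, mul_smul, mul_smul]
  exact hK.add h0 (hK.smul k' hpp)

/-- `p` is a prime: each number is divisible by `p` or invertible modulo `p` -/
def Pr (p : R) : Prop := (∃ p', p = p' + 1) ∧ ∀ k, (∃ k', k = p * k') ∨ Bez p k

theorem Kx_mono {u : α} {h : β} {a : α} {b : β} (h0 : K a b) : Kx R K u h a b :=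
  ⟨a, b, 0, h0, by simp, by simp⟩

theorem Kx_new (hK : PI R K) {u : α} {h : β} : Kx R K u h u h :=
  ⟨0, 0, 1, hK.zero, by simp, by simp⟩

theorem Kx_PI (hK : PI R K) {p : R} (hp : Pr p) {u : α} {h : β} (hpp : K (p • u) (p • h))
    (hu : ∀ b, ¬ K u b) (hh : ∀ a, ¬ K a h) : PI R (Kx R K u h) where
  zero := Kx_mono hK.zero
  add := by
    rintro a b a' b' ⟨a0, b0, k, h1, rfl, rfl⟩ ⟨a0', b0', k', h1', rfl, rfl⟩
    exact ⟨a0 + a0', b0 + b0', k + k', hK.add h1 h1', by rw [add_smul]; abel,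
      by rw [add_smul]; abel⟩
  neg := by
    rintro a b ⟨a0, b0, k, h1, rfl, rfl⟩
    obtain ⟨⟨p', rfl⟩, -⟩ := hp
    refine ⟨-a0 - k • ((p' + 1) • u), -b0 - k • ((p' + 1) • h), k * p',
      hK.sub (hK.neg h1) (hK.smul k hpp), ?_, ?_⟩
    · simp only [add_smul, one_smul, smul_add, mul_smul]; abel
    · simp only [add_smul, one_smul, smul_add, mul_smul]; abel
  smul := by
    rintro l a b ⟨a0, b0, k, h1, rfl, rfl⟩
    exact ⟨l • a0, l • b0, l * k, hK.smul l h1, by rw [smul_add, mul_smul],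
      by rw [smul_add, mul_smul]⟩
  inj1 := by
    rintro b ⟨a0, b0, k, h1, h2, rfl⟩
    rcases hp.2 k with ⟨k', hk⟩ | hb
    · have := Kx_dvd hK hpp hk h1
      rw [← h2] at this
      exact hK.inj1 this
    · obtain ⟨t, a1, b1, h3, h4, h5⟩ := Kx_bez hK hpp hb h1
      rw [← h2, smul_zero] at h4
      have h6 : u = -a1 := eq_neg_of_add_eq_zero_left h4.symm
      exact absurd (by rw [h6]; exact hK.neg h3) (hu (-b1))
  inj2 := by
    rintro a ⟨a0, b0, k, h1, rfl, h2⟩
    rcases hp.2 k with ⟨k', hk⟩ | hb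
    · have := Kx_dvd hK hpp hk h1
      rw [← h2] at this
      exact hK.inj2 this
    · obtain ⟨t, a1, b1, h3, h4, h5⟩ := Kx_bez hK hpp hb h1
      rw [← h2, smul_zero] at h5
      have h6 : h = -b1 := eq_neg_of_add_eq_zero_left h5.symm
      exact absurd (by rw [h6]; exact hK.neg h3) (hh (-a1))

/-- preservation of a level for the prime `p` -/
theorem Kx_same (hK : PI R K) {p : R} (hp : Pr p) {u : α} {h : β} (hpp : K (p • u) (p • h))
    {SA : α → Prop} {SB : β → Prop} (hA : Sg R SA) (hB : Sg R SB)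
    (hpres : ∀ a b, K a b → (SA a ↔ SB b))
    (hlev : (SA u ∧ SB h) ∨ ∀ a b, K a b → ¬ SA (u + a) ∧ ¬ SB (h + b)) :
    ∀ w w', Kx R K u h w w' → (SA w ↔ SB w') := by
  rintro w w' ⟨a0, b0, k, h1, rfl, rfl⟩
  rcases hlev with ⟨hu, hh⟩ | hlev
  · constructor
    · intro h2
      have h3 : SA a0 := by
        have := hA.sub h2 (hA.smul k hu)
        simpa using this
      exact hB.add ((hpres _ _ h1).1 h3) (hB.smul k hh)
    · intro h2
      have h3 : SB b0 := by
        have := hB.sub h2 (hB.smul k hh)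
        simpa using this
      exact hA.add ((hpres _ _ h1).2 h3) (hA.smul k hu)
  · rcases hp.2 k with ⟨k', hk⟩ | hb
    · exact hpres _ _ (Kx_dvd hK hpp hk h1)
    · obtain ⟨t, a1, b1, h3, h4, h5⟩ := Kx_bez hK hpp hb h1
      constructor
      · intro h2
        exact absurd (by rw [← h4]; exact hA.smul t h2) (hlev _ _ h3).1
      · intro h2
        exact absurd (by rw [← h5]; exact hB.smul t h2) (hlev _ _ h3).2

/-- preservation of a level for another prime -/
theorem Kx_other (hK : PI R K) {p : R} {u : α} {h : β} (hpp : K (p • u) (p • h))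
    {SA : α → Prop} {SB : β → Prop} (hA : Sg R SA) (hB : Sg R SB)
    (hrA : ∀ w, SA (p • w) → SA w) (hrB : ∀ w, SB (p • w) → SB w)
    (hpres : ∀ a b, K a b → (SA a ↔ SB b)) :
    ∀ w w', Kx R K u h w w' → (SA w ↔ SB w') := by
  rintro w w' ⟨a0, b0, k, h1, rfl, rfl⟩
  have h2 : K (p • (a0 + k • u)) (p • (b0 + k • h)) := by
    rw [smul_add, smul_add, smul_comm p k u, smul_comm p k h]
    exact hK.add (hK.smul p h1) (hK.smul k hpp)
  constructor
  · intro h3
    exact hrB _ ((hpres _ _ h2).1 (hA.smul p h3))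
  · intro h3
    exact hrA _ ((hpres _ _ h2).2 (hB.smul p h3))

end alg

end Pool.Agent.W941.UL
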