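import Mathlib
import Pool.Agent.W941.UL.Tools
import Pool.Agent.W941.UL.Alg

/-! Primes of the structure. -/

namespace Pool.Agent.W941.UL

open Pool.Agent.Helper617.RM Pool.Agent.Helper317.Atr

universe u

set_option linter.unusedSectionVars false
set_option linter.unusedVariables false

variable {N : L2Structure.{u}} [IsModelRCA0 N] [Sig1 N]

/-- primes -/
def Pm (p : N.M) : Prop := 1 < p ∧ ∀ d, d ∣ p → d = 1 ∨ d = p

theorem Pm_D0 {g : Ctx N → N.M} (hg : AG g) : D0 (fun v => Pm (g v)) := by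
  refine D0.app1 (R := fun p => Pm p) (D0.and (D0.lt Tm.one (Tm.var 0)) (D0.all (D0.imp ?_
    (D0.or ?_ ?_)))) hg
  · exact D0.dvd (Tm.var 0) (Tm.var 1)
  · exact D0.eq (Tm.var 0) Tm.one
  · exact D0.eq (Tm.var 0) (Tm.var 1)

theorem Pm.pos {p : N.M} (h : Pm p) : ∃ p', p = p' + 1 := by
  rcases eq_zero_or_succ p with h0 | h0
  · exact absurd h.1 (by rw [h0]; exact not_lt_of_ge (zero_le' 1))
  · exact h0

theorem exists_div {d : N.M} (hd : 0 < d) (s : N.M) : ∃ q r, s = q * d + r ∧ r < d := by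
  refine ind_D0 (P := fun s => ∃ q r, s = q * d + r ∧ r < d) ?_ ⟨0, 0, by ring, hd⟩ ?_ s
  · refine D0.ex (D0.ex (D0.and ?_ ?_))
    · exact D0.eq (Tm.var 2) (((Tm.var 1).mul (Tm.const d)).add (Tm.var 0))
    · exact D0.lt (Tm.var 0) (Tm.const d)
  · rintro n ⟨q, r, h1, h2⟩
    rcases lt_or_eq_of_le (add_one_le_iff'.2 h2) with h3 | h3
    · exact ⟨q, r + 1, by rw [h1]; ring, h3⟩
    · refine ⟨q + 1, 0, ?_, hd⟩
      rw [h1, ← h3]; ring

theorem Pm.dich {p : N.M} (hp : Pm p) (k : N.M) : (∃ k', k = p * k') ∨ Bez p k := by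
  set T : N.M → Prop := fun d => ∃ a b a' b', d + a * k + b * p = a' * k + b' * p with hT
  have hTD : D0 (fun v => 0 < v 0 ∧ T (v 0)) := by
    refine D0.and (D0.lt Tm.zero (Tm.var 0)) (D0.ex (D0.ex (D0.ex (D0.ex ?_))))
    refine D0.eq (((Tm.var 4).add ((Tm.var 3).mul (Tm.const k))).add
      ((Tm.var 2).mul (Tm.const p))) (((Tm.var 1).mul (Tm.const k)).add
      ((Tm.var 0).mul (Tm.const p)))
  have hp0 : 0 < p := zero_lt_one'.trans hp.1
  have hTp : T p := ⟨0, 0, 0, 1, by ring⟩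
  have hTk : T k := ⟨0, 0, 1, 0, by ring⟩
  obtain ⟨d, ⟨hd0, a, b, a', b', hd⟩, hmin⟩ := lnp (P := fun d => 0 < d ∧ T d) hTD ⟨hp0, hTp⟩
  have hdiv : ∀ s, T s → d ∣ s := by
    rintro s ⟨a1, b1, a1', b1', hs⟩
    obtain ⟨q, r, h1, h2⟩ := exists_div hd0 s
    rcases eq_zero_or_succ r with h3 | ⟨r', h3⟩
    · exact ⟨q, by rw [h1, h3]; ring⟩
    · exfalso
      refine hmin r h2 ⟨by rw [h3]; exact lt_of_le_of_lt (zero_le' _) (lt_succ_self' r'), ?_⟩
      refine ⟨a1 + q * a', b1 + q * b', a1' + q * a, b1' + q * b, ?_⟩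
      have e1 : r + (a1 + q * a') * k + (b1 + q * b') * p =
          r + a1 * k + b1 * p + q * (a' * k + b' * p) := by ring
      rw [e1, ← hd]
      have e2 : r + a1 * k + b1 * p + q * (d + a * k + b * p) =
          (q * d + r + a1 * k + b1 * p) + q * a * k + q * b * p := by ring
      rw [e2, ← h1, hs]; ring
  rcases hp.2 d (hdiv p hTp) with h | h
  · right
    obtain ⟨p', hp'⟩ := hp.pos
    refine ⟨a' + a * p', b', b + a * k, ?_⟩
    rw [h] at hd
    have e1 : (a' + a * p') * k + b' * p = (a' * k + b' * p) + a * p' * k := by ring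
    rw [e1, ← hd]
    have e2 : 1 + a * k + b * p + a * p' * k = 1 + b * p + a * k * (p' + 1) := by ring
    rw [e2, ← hp']; ring
  · left
    rw [h] at hdiv
    obtain ⟨c, hc⟩ := hdiv k hTk
    exact ⟨c, hc⟩

theorem Pm.pr {p : N.M} (hp : Pm p) : Pr p := ⟨hp.pos, hp.dich⟩

theorem Pm.bez {p q : N.M} (hp : Pm p) (hq : Pm q) (hne : p ≠ q) : Bez q p := by
  rcases hq.dich p with ⟨k', hk⟩ | h
  · rcases hp.2 q ⟨k', hk⟩ with h1 | h1
    · exact absurd hq.1 (by rw [h1]; exact lt_irrefl _)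
    · exact absurd h1.symm hne
  · exact h

theorem exists_factor {m : N.M} (hm : 1 < m) : ∃ p m', Pm p ∧ m = p * m' := by
  obtain ⟨p, ⟨h1, h2⟩, hmin⟩ := lnp (P := fun d => 1 < d ∧ d ∣ m)
    (D0.and (D0.lt Tm.one (Tm.var 0)) (D0.dvd (Tm.var 0) (Tm.const m))) ⟨hm, dvd_refl m⟩
  obtain ⟨m', hm'⟩ := h2
  refine ⟨p, m', ⟨h1, fun d hd => ?_⟩, hm'⟩
  by_contra hcon
  push Not at hcon
  have hd0 : d ≠ 0 := by
    rintro rfl
    obtain ⟨c, hc⟩ := hd
    rw [zero_mul] at hc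
    rw [hc] at h1
    exact absurd h1 (not_lt_of_ge (zero_le' 1))
  have hd1 : 1 < d := by
    rcases lt_or_eq_of_le (one_le_of_pos (Helper617.RM.pos_of_ne_zero hd0)) with h | h
    · exact h
    · exact absurd h.symm hcon.1
  have hdp : d < p := by
    obtain ⟨c, hc⟩ := hd
    rcases eq_zero_or_succ c with h0 | ⟨c', h0⟩
    · rw [h0, mul_zero] at hc
      rw [hc] at h1
      exact absurd h1 (not_lt_of_ge (zero_le' 1))
    · refine lt_of_le_of_ne ?_ hcon.2
      rw [hc, h0]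
      calc d = d * 1 := by ring
        _ ≤ d * (c' + 1) := by gcongr; exact le_add_of_nonneg_left (zero_le' _)
  exact hmin d hdp ⟨hd1, hd.trans ⟨m', hm'⟩⟩

end Pool.Agent.W941.UL
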