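import Mathlib
import Pool.Agent.W941.UL.Pm

/-! The hierarchy of subgroups along a well-ordering of the structure. -/

namespace Pool.Agent.W941.UL

open Pool.Agent.Helper617.RM Pool.Agent.Helper317.Atr

universe u

set_option linter.unusedSectionVars false
set_option linter.unusedVariables false

variable {N : L2Structure.{u}} [IsModelRCA0 N] [Sig1 N]
variable {α : Type u} [AddCommGroup α] [Module N.M α] [Cod N α]
variable {T : Set N.M} {R : N.M → N.M → Prop}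

/-- a hierarchy along `T` -/
structure Lev (T : Set N.M) (R : N.M → N.M → Prop) (L : N.M → N.M → α → Prop) : Prop where
  def' : D0 (fun v : Ctx N => L (v 0) (v 1) (dc N α (v 2)))
  rec' : ∀ p x, x ∈ T → ∀ u, (L p x u ↔ ∀ y, R y x → y ≠ x → ∃ w, L p y w ∧ u = p • w)

theorem exists_lev (hA : ArithTransRec N) (hW : IsWellOrd N T R) :
    ∃ L : N.M → N.M → α → Prop, Lev T R L := by
  have hRD : D0 (fun v => R (v 0) (v 1)) := D0.of_codeRel hW.rel
  obtain ⟨E, hE, hrec⟩ := atr_rec hA hW (Θ := fun j z Z => ∃ p u, z = pr p u ∧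
    ∀ y, (R y j ∧ ¬ y = j) → ∃ w, (w = cd N (dc N α w) ∧ dc N α u = p • dc N α w) ∧
      pr (pr p w) y ∈ Z) (by
    refine AY.ex (AY.ex (AY.and (AY.of_D0 ?_) (AY.all (AY.imp (AY.of_D0 ?_)
      (AY.ex (AY.and (AY.of_D0 ?_) (AY.memY ?_)))))))
    · exact D0.eq (Tm.var 3) ((Tm.var 1).pr (Tm.var 0))
    · exact D0.and (hRD.rel (Tm.var 0) (Tm.var 3)) (D0.eq (Tm.var 0) (Tm.var 3)).not
    · exact D0.and (D0.eqA (AG.var 0) (AA.dc (AG.var 0)).cd)
        (D0.aeq (AA.dc (AG.var 2)) (AA.smul (AG.var 3) (AA.dc (AG.var 0))))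
    · exact ((Tm.var 3).pr (Tm.var 0)).pr (Tm.var 1))
  refine ⟨fun p x a => E x (pr p (cd N a)), ?_, ?_⟩
  · exact D0.app2 (R := fun a b => E a b) hE (AG.var 1) (AG.pr (AG.var 0) (AA.dc (AG.var 2)).cd)
  · intro p x hx u
    show E x (pr p (cd N u)) ↔ _
    rw [hrec x hx]
    constructor
    · rintro ⟨p', u', h1, h2⟩ y hy hyx
      obtain ⟨rfl, rfl⟩ := pr_inj h1
      obtain ⟨w, ⟨h3, h4⟩, x', i, h5, h6, h7, h8⟩ := h2 y ⟨hy, hyx⟩
      obtain ⟨rfl, rfl⟩ := pr_inj h5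
      refine ⟨dc N α w, ?_, ?_⟩
      · rw [← h3]; exact h8
      · rw [dc_cd] at h4; exact h4
    · intro h
      refine ⟨p, cd N u, rfl, fun y hy => ?_⟩
      obtain ⟨w, h1, h2⟩ := h y hy.1 hy.2
      refine ⟨cd N w, ⟨by rw [dc_cd], by rw [dc_cd, dc_cd]; exact h2⟩, _, y, rfl, hy.1, hy.2, h1⟩

variable {L : N.M → N.M → α → Prop}

theorem Lev.D (h : Lev T R L) {p x : Ctx N → N.M} {u : Ctx N → α} (hp : AG p) (hx : AG x)
    (hu : AA u) : D0 (fun v => L (p v) (x v) (u v)) := by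
  have := D0.app3 (R := fun a b c => L a b (dc N α c)) h.def' hp hx hu.cd
  simp only [dc_cd] at this
  exact this

theorem Lev.anti (h : Lev T R L) (hW : IsWellOrd N T R) {p x y : N.M} {u : α} (hxy : R x y)
    (hu : L p y u) : L p x u := by
  obtain ⟨hx, hy⟩ := hW.dom x y hxy
  rw [h.rec' p x hx]
  intro z hz hzx
  refine (h.rec' p y hy u).1 hu z (hW.trans z x y hz hxy) fun e => ?_
  subst e
  exact hzx (hW.antisymm z x hz hxy)

theorem Lev.sg (h : Lev T R L) (hW : IsWellOrd N T R) (p : N.M) : ∀ x, x ∈ T →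
    Sg N.M (L p x) := by
  have key : ∀ x, x ∈ T → (L p x 0 ∧ (∀ a b, L p x a → L p x b → L p x (a + b)) ∧
      (∀ a, L p x a → L p x (-a)) ∧ ∀ (k : N.M) a, L p x a → L p x (k • a)) := by
    refine wo_ind hW (Z := fun x => (L p x 0 ∧ (∀ a b, L p x a → L p x b → L p x (a + b)) ∧
      (∀ a, L p x a → L p x (-a)) ∧ ∀ (k : N.M) a, L p x a → L p x (k • a))) ?_ ?_
    · refine D0.and ?_ (D0.and (D0.aall (D0.aall (D0.imp ?_ (D0.imp ?_ ?_)))) (D0.and
        (D0.aall (D0.imp ?_ ?_)) (D0.all (D0.aall (D0.imp ?_ ?_)))))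
      · exact h.D (AG.const p) (AG.var 0) AA.zero
      · exact h.D (AG.const p) (AG.var 2) (AA.dc (AG.var 1))
      · exact h.D (AG.const p) (AG.var 2) (AA.dc (AG.var 0))
      · exact h.D (AG.const p) (AG.var 2) ((AA.dc (AG.var 1)).add (AA.dc (AG.var 0)))
      · exact h.D (AG.const p) (AG.var 1) (AA.dc (AG.var 0))
      · exact h.D (AG.const p) (AG.var 1) (AA.dc (AG.var 0)).neg
      · exact h.D (AG.const p) (AG.var 2) (AA.dc (AG.var 0))
      · exact h.D (AG.const p) (AG.var 2) (AA.smul (AG.var 1) (AA.dc (AG.var 0)))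
    · intro x hx ih
      refine ⟨?_, ?_, ?_, ?_⟩
      · rw [h.rec' p x hx]
        intro y hy hyx
        exact ⟨0, (ih y (hW.dom y x hy).1 hy hyx).1, by simp⟩
      · intro a b ha hb
        rw [h.rec' p x hx] at ha hb ⊢
        intro y hy hyx
        obtain ⟨w, h1, h2⟩ := ha y hy hyx
        obtain ⟨w', h1', h2'⟩ := hb y hy hyx
        exact ⟨w + w', (ih y (hW.dom y x hy).1 hy hyx).2.1 _ _ h1 h1', by rw [h2, h2', smul_add]⟩
      · intro a ha
        rw [h.rec' p x hx] at ha ⊢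
        intro y hy hyx
        obtain ⟨w, h1, h2⟩ := ha y hy hyx
        exact ⟨-w, (ih y (hW.dom y x hy).1 hy hyx).2.2.1 _ h1, by rw [h2, smul_neg]⟩
      · intro k a ha
        rw [h.rec' p x hx] at ha ⊢
        intro y hy hyx
        obtain ⟨w, h1, h2⟩ := ha y hy hyx
        exact ⟨k • w, (ih y (hW.dom y x hy).1 hy hyx).2.2.2 k _ h1, by
          rw [h2, smul_comm]⟩
  intro x hx
  obtain ⟨h1, h2, h3, h4⟩ := key x hx
  exact ⟨h1, fun ha hb => h2 _ _ ha hb, fun ha => h3 _ ha, fun k _ ha => h4 k _ ha⟩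

/-- `y` is the successor of `x` -/
def Sc (R : N.M → N.M → Prop) (x y : N.M) : Prop :=
  R x y ∧ x ≠ y ∧ ∀ z, R x z → x ≠ z → R y z

theorem exists_sc (hW : IsWellOrd N T R) {x X : N.M} (h1 : R x X) (h2 : x ≠ X) :
    ∃ y, Sc R x y ∧ R y X := by
  have hRD : D0 (fun v => R (v 0) (v 1)) := D0.of_codeRel hW.rel
  obtain ⟨y, hy, hyz, hmin⟩ := wo_least hW (Z := fun z => R x z ∧ ¬ x = z)
    (D0.and (hRD.rel (Tm.const x) (Tm.var 0)) (D0.eq (Tm.const x) (Tm.var 0)).not)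
    (hW.dom _ _ h1).2 ⟨h1, h2⟩
  exact ⟨y, ⟨hyz.1, hyz.2, fun z hz hxz => hmin z (hW.dom _ _ hz).2 ⟨hz, hxz⟩⟩,
    hmin X (hW.dom _ _ h1).2 ⟨h1, h2⟩⟩

theorem Lev.succ (h : Lev T R L) (hW : IsWellOrd N T R) {p x y : N.M} (hxy : Sc R x y) (u : α) :
    L p y u ↔ ∃ w, L p x w ∧ u = p • w := by
  obtain ⟨hx, hy⟩ := hW.dom x y hxy.1
  rw [h.rec' p y hy]
  constructor
  · intro h1
    exact h1 x hxy.1 hxy.2.1
  · rintro ⟨w, h1, h2⟩ z hz hzy
    refine ⟨w, h.anti hW ?_ h1, h2⟩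
    by_contra hzx
    have hz' := (hW.dom z y hz).1
    have hxz : R x z := (hW.total z hz' x hx).resolve_left hzx
    have hne : x ≠ z := by
      rintro rfl
      exact hzx (hW.refl x hx)
    exact hzy (hW.antisymm z y hz (hxy.2.2 z hxz hne))

/-- multiplication by another prime -/
theorem Lev.refl (h : Lev T R L) (hW : IsWellOrd N T R) {p q : N.M} (hb : Bez q p) :
    ∀ x, x ∈ T → ∀ w, L q x (p • w) → L q x w := by
  refine wo_ind hW (Z := fun x => ∀ w, L q x (p • w) → L q x w) ?_ ?_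
  · refine D0.aall (D0.imp ?_ ?_)
    · exact h.D (AG.const q) (AG.var 1) (AA.smul (AG.const p) (AA.dc (AG.var 0)))
    · exact h.D (AG.const q) (AG.var 1) (AA.dc (AG.var 0))
  · intro x hx ih w hw
    rw [h.rec' q x hx]
    intro y hy hyx
    obtain ⟨hyT, -⟩ := hW.dom y x hy
    obtain ⟨z, h1, h2⟩ := (h.rec' q x hx _).1 hw y hy hyx
    have h3 : L q y w := ih y hyT hy hyx w (h.anti hW hy hw)
    have hS := h.sg hW q y hyT
    obtain ⟨t, B, B', e⟩ := hb
    refine ⟨t • z + B • w - B' • w, hS.sub (hS.add (hS.smul t h1) (hS.smul B h3))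
      (hS.smul B' h3), ?_⟩
    have := congrArg (fun r => r • w) e
    simp only [add_smul, one_smul, mul_smul] at this
    rw [smul_sub, smul_add, smul_comm q t z, ← h2, smul_comm q B w, smul_comm q B' w, this]
    abel

end Pool.Agent.W941.UL
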