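import Mathlib
import Pool.Agent.W941.UL.Lev
import Pool.Agent.W941.TH.Tools

/-! Counting classes inside the structure. -/

namespace Pool.Agent.W941.UL

open Pool.Agent.Helper617.RM Pool.Agent.Helper317.Atr

universe u

set_option linter.unusedSectionVars false
set_option linter.unusedVariables false

variable {N : L2Structure.{u}} [IsModelRCA0 N] [Sig1 N]

theorem AG.gf {f : N.M → N.M} (hf : AG (fun v : Ctx N => f (v 0))) :
    D0 (fun v => v 1 = f (v 0)) :=
  D0.comp (R := fun w => w 0 = f (Helper617.RM.tail w 0)) hf (g := fun w => cons (w 1) w)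
    (CM.cons (Tm.var 1) CM.id)

/-- choice of least witnesses -/
theorem choiceN {Q : N.M → N.M → Prop} (hQ : D0 (fun v => Q (v 0) (v 1))) :
    ∃ g : N.M → N.M, AG (fun v : Ctx N => g (v 0)) ∧ ∀ i, (∃ x, Q i x) → Q i (g i) := by
  classical
  have hun : ∀ i : N.M, ∃ c, (∃ z, Q i z) → (Q i c ∧ ∀ z, z < c → ¬ Q i z) := by
    intro i
    by_cases h : ∃ z, Q i z
    · obtain ⟨z, hz⟩ := h
      obtain ⟨c, h1, h2⟩ := lnp (P := fun c => Q i c) (hQ.rel (Tm.const i) (Tm.var 0)) hz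
      exact ⟨c, fun _ => ⟨h1, h2⟩⟩
    · exact ⟨0, fun h' => absurd h' h⟩
  choose c hc using hun
  refine ⟨fun i => if ∃ z, Q i z then c i else 0, ?_, fun i hi => ?_⟩
  · refine D0.congr (R := fun v => ((∃ z, Q (v 1) z) ∧ Q (v 1) (v 0) ∧
      ∀ z, z < v 0 → ¬ Q (v 1) z) ∨ ((¬ ∃ z, Q (v 1) z) ∧ v 0 = 0))
      ?_ ?_
    · refine D0.or (D0.and (D0.ex ?_) (D0.and ?_ (D0.all (D0.imp ?_ ?_)))) (D0.and
        (D0.ex ?_).not (D0.eq (Tm.var 0) Tm.zero))
      · exact hQ.rel (Tm.var 2) (Tm.var 0)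
      · exact hQ.rel (Tm.var 1) (Tm.var 0)
      · exact D0.lt (Tm.var 0) (Tm.var 1)
      · exact (hQ.rel (Tm.var 2) (Tm.var 0)).not
      · exact hQ.rel (Tm.var 2) (Tm.var 0)
    · intro v
      show _ ↔ v 0 = if ∃ z, Q (v 1) z then c (v 1) else 0
      by_cases h : ∃ z, Q (v 1) z
      · simp only [h, if_true, not_true, false_and, or_false, true_and]
        obtain ⟨h1, h2⟩ := hc (v 1) h
        constructor
        · rintro ⟨h3, h4⟩
          rcases lt_trichotomy (v 0) (c (v 1)) with h5 | h5 | h5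
          · exact absurd h3 (h2 _ h5)
          · exact h5
          · exact absurd h1 (h4 _ h5)
        · intro h3
          rw [h3]
          exact ⟨h1, h2⟩
      · simp only [h, if_false, false_and, false_or, not_false_iff, true_and]
  · simp only [hi, if_true]
    exact (hc i hi).1

variable {α : Type u} [AddCommGroup α] [Module N.M α] [Cod N α]
variable {β : Type u} [AddCommGroup β] [Module N.M β] [Cod N β]

theorem choiceA {Q : N.M → α → Prop} (hQ : D0 (fun v : Ctx N => Q (v 0) (dc N α (v 1)))) :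
    ∃ g : N.M → α, AA (fun v : Ctx N => g (v 0)) ∧ ∀ i, (∃ x, Q i x) → Q i (g i) := by
  obtain ⟨g, hg, h⟩ := choiceN (Q := fun i x => Q i (dc N α x)) hQ
  refine ⟨fun i => dc N α (g i), AA.dc hg, fun i ⟨x, hx⟩ => h i ⟨cd N x, ?_⟩⟩
  rw [dc_cd]; exact hx

theorem AA.ite {P : Ctx N → Prop} {hd : ∀ v, Decidable (P v)} (hP : D0 P) {g g' : Ctx N → α}
    (hg : AA g) (hg' : AA g') : AA (fun v => if P v then g v else g' v) := by
  refine D0.congr (AG.ite hP hg.cd hg'.cd) fun w => ?_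
  beta_reduce
  by_cases h : P (Helper617.RM.tail w)
  · simp only [h, if_true]
  · simp only [h, if_false]

/-- there are `n` elements of `P` that are pairwise not congruent modulo `U` -/
def Seqn (e : N.M → N.M → N.M) (P U : α → Prop) (n : N.M) : Prop :=
  ∃ s, (∀ i, i < n → P (dc N α (e s i))) ∧
    ∀ i, i < n → ∀ j, j < i → ¬ U (dc N α (e s i) - dc N α (e s j))

variable {e : N.M → N.M → N.M}

theorem Entf.A (he : Entf N e) {s i : Ctx N → N.M} (hs : AG s) (hi : AG i) :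
    AA (fun v => dc N α (e (s v) (i v))) := AA.dc (AG.op2 he.def' hs hi)

theorem Seqn_D (he : Entf N e) {P U : α → Prop} (hP : P1 (N := N) P) (hU : P1 (N := N) U) :
    D0 (fun v => Seqn e P U (v 0)) := by
  refine D0.ex (D0.and (D0.all (D0.imp ?_ ?_)) (D0.all (D0.imp ?_ (D0.all (D0.imp ?_
    (D0.not ?_))))))
  · exact D0.lt (Tm.var 0) (Tm.var 2)
  · exact hP.app (he.A (AG.var 1) (AG.var 0))
  · exact D0.lt (Tm.var 0) (Tm.var 2)
  · exact D0.lt (Tm.var 0) (Tm.var 1)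
  · exact hU.app ((he.A (AG.var 2) (AG.var 1)).sub (he.A (AG.var 2) (AG.var 0)))

theorem Seqn_fun (he : Entf N e) {P U : α → Prop} {g : N.M → α}
    (hg : AA (fun v : Ctx N => g (v 0))) {n : N.M} (h1 : ∀ i, i < n → P (g i))
    (h2 : ∀ i, i < n → ∀ j, j < i → ¬ U (g i - g j)) : Seqn e P U n := by
  obtain ⟨s, hs⟩ := he.get (fun x => cd N (g x)) (AG.gf (f := fun x => cd N (g x)) hg) n
  refine ⟨s, fun i hi => ?_, fun i hi j hj => ?_⟩
  · rw [hs i hi, dc_cd]; exact h1 i hi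
  · rw [hs i hi, hs j (hj.trans hi), dc_cd, dc_cd]; exact h2 i hi j hj

theorem Seqn_max (he : Entf N e) {P U : α → Prop} (hP : P1 (N := N) P) (hU : P1 (N := N) U)
    (hU0 : U 0) {b : N.M} (hb : ∀ a, P a → cd N a < b) :
    ∃ c, Seqn e P U c ∧ ¬ Seqn e P U (c + 1) := by
  have hnot : ¬ Seqn e P U (b + 1) := by
    rintro ⟨s, h1, h2⟩
    obtain ⟨k, k', hkk, hk', h3⟩ := TH.php (A := fun i => cd N (dc N α (e s i)))
      (AG.gf (f := fun i => cd N (dc N α (e s i))) (he.A (AG.const s) (AG.var 0)).cd) b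
      (fun k hk => hb _ (h1 k (lt_add_one_iff'.2 hk)))
    refine h2 k' (lt_add_one_iff'.2 hk') k hkk ?_
    rw [cd_inj h3, sub_self]
    exact hU0
  obtain ⟨n, hn, hmin⟩ := lnp (P := fun n => ¬ Seqn e P U n) (Seqn_D he hP hU).not hnot
  rcases eq_zero_or_succ n with h | ⟨c, h⟩
  · exfalso
    apply hn
    rw [h]
    exact ⟨0, fun i hi => absurd hi (not_lt_of_ge (zero_le' i)),
      fun i hi => absurd hi (not_lt_of_ge (zero_le' i))⟩
  · refine ⟨c, ?_, by rw [← h]; exact hn⟩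
    by_contra h'
    exact hmin c (by rw [h]; exact lt_succ_self' c) h'

theorem count (he : Entf N e) {K : α → β → Prop} (hK : PI N.M K) (hKd : P2 (N := N) K)
    (hb : ∃ b, ∀ a c, K a c → cd N a < b) {p : N.M} {WA UA : α → Prop} {WB UB : β → Prop}
    (dWA : P1 (N := N) WA) (dUA : P1 (N := N) UA) (dWB : P1 (N := N) WB) (dUB : P1 (N := N) UB)
    (sWA : Sg N.M WA) (sUA : Sg N.M UA) (sWB : Sg N.M WB) (sUB : Sg N.M UB)
    (hUWA : ∀ a, UA a → WA a) (hUWB : ∀ a, UB a → WB a)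
    (hpW : ∀ a c, K a c → (WA a ↔ WB c)) (hpU : ∀ a c, K a c → (UA a ↔ UB c))
    (hpV : ∀ a c, K a c → ((∃ w, UA w ∧ p • a = p • w) ↔ (∃ w, UB w ∧ p • c = p • w)))
    (cmp : ∀ n, Seqn e (fun a => WA a ∧ p • a = 0) UA n → Seqn e (fun a => WB a ∧ p • a = 0) UB n)
    {v : α} (hv : WA v) (hpv : p • v = 0) (hvA : ∀ a c, K a c → ¬ UA (v + a)) :
    ∃ v', WB v' ∧ p • v' = 0 ∧ ∀ a c, K a c → ¬ UB (v' + c) := by
  classical
  by_contra hcon
  push Not at hcon
  obtain ⟨b, hb⟩ := hb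
  set A : α → Prop := fun a => (∃ c, K a c) ∧ WA a ∧ ∃ w, UA w ∧ p • a = p • w with hAdef
  have dA : P1 (N := N) A := by
    refine D0.and (D0.aex (hKd.app (AA.dc (AG.var 1)) (AA.dc (AG.var 0)))) (D0.and
      (dWA.app (AA.dc (AG.var 0))) (D0.aex (D0.and (dUA.app (AA.dc (AG.var 0)))
        (D0.aeq (AA.smul (AG.const p) (AA.dc (AG.var 1)))
          (AA.smul (AG.const p) (AA.dc (AG.var 0)))))))
  obtain ⟨c, ⟨s, hs1, hs2⟩, hmax⟩ := Seqn_max he dA dUA sUA.zero (b := b)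
    (fun a ha => by obtain ⟨c, hc⟩ := ha.1; exact hb a c hc)
  -- `c + 1` classes for the first group
  obtain ⟨w, hw, hw2⟩ := choiceA (Q := fun i w => UA w ∧ p • dc N α (e s i) = p • w) (by
    refine D0.and (dUA.app (AA.dc (AG.var 1))) (D0.aeq ?_ ?_)
    · exact AA.smul (AG.const p) (he.A (AG.const s) (AG.var 0))
    · exact AA.smul (AG.const p) (AA.dc (AG.var 1)))
  have hw3 : ∀ i, i < c → UA (w i) ∧ p • dc N α (e s i) = p • w i := fun i hi =>
    hw2 i (hs1 i hi).2.2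
  have h1 : Seqn e (fun a => WA a ∧ p • a = 0) UA (c + 1) := by
    refine Seqn_fun he (g := fun i => if i < c then dc N α (e s i) - w i else v) ?_ ?_ ?_
    · exact AA.ite (D0.lt (Tm.var 0) (Tm.const c)) ((he.A (AG.const s) (AG.var 0)).sub hw)
        (AA.const v)
    · intro i hi
      by_cases hic : i < c
      · simp only [hic, if_true]
        exact ⟨sWA.sub (hs1 i hic).2.1 (hUWA _ (hw3 i hic).1), by
          rw [smul_sub, (hw3 i hic).2, sub_self]⟩
      · simp only [hic, if_false]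
        exact ⟨hv, hpv⟩
    · intro i hi j hj
      have hjc : j < c := lt_of_lt_of_le hj (lt_add_one_iff'.1 hi)
      by_cases hic : i < c
      · simp only [hic, hjc, if_true]
        intro h
        refine hs2 i hic j hj ?_
        have e1 : dc N α (e s i) - dc N α (e s j) =
            (dc N α (e s i) - w i - (dc N α (e s j) - w j)) + (w i - w j) := by abel
        rw [e1]
        exact sUA.add h (sUA.sub (hw3 i hic).1 (hw3 j hjc).1)
      · simp only [hic, hjc, if_true, if_false]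
        intro h
        obtain ⟨d, hd⟩ := (hs1 j hjc).1
        refine hvA _ _ (hK.neg hd) ?_
        have e1 : v + -dc N α (e s j) = (v - (dc N α (e s j) - w j)) - w j := by abel
        rw [e1]
        exact sUA.sub h (hw3 j hjc).1
  obtain ⟨s', ht1, ht2⟩ := cmp _ h1
  obtain ⟨a', ha', ha2⟩ := choiceA (α := α) (N := N)
    (Q := fun i a => ∃ d, K a d ∧ UB (dc N β (e s' i) - d)) (by
      refine D0.aex (D0.and ?_ ?_)
      · exact hKd.app (AA.dc (AG.var 2)) (AA.dc (AG.var 0))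
      · exact dUB.app ((he.A (AG.const s') (AG.var 1)).sub (AA.dc (AG.var 0))))
  have ha3 : ∀ i, i < c + 1 → ∃ d, K (a' i) d ∧ UB (dc N β (e s' i) - d) := by
    intro i hi
    refine ha2 i ?_
    obtain ⟨a, d, h2, h3⟩ := hcon _ (ht1 i hi).1 (ht1 i hi).2
    exact ⟨-a, -d, hK.neg h2, by rw [sub_neg_eq_add]; exact h3⟩
  apply hmax
  refine Seqn_fun he ha' ?_ ?_
  · intro i hi
    obtain ⟨d, h2, h3⟩ := ha3 i hi
    have h4 : WB d := by
      have := sWB.sub (ht1 i hi).1 (hUWB _ h3)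
      simpa using this
    refine ⟨⟨d, h2⟩, (hpW _ _ h2).2 h4, (hpV _ _ h2).2 ⟨-(dc N β (e s' i) - d), sUB.neg h3, ?_⟩⟩
    rw [smul_neg, smul_sub, (ht1 i hi).2, zero_sub, neg_neg]
  · intro i hi j hj h4
    obtain ⟨d, h2, h3⟩ := ha3 i hi
    obtain ⟨d', h2', h3'⟩ := ha3 j (hj.trans hi)
    refine ht2 i hi j hj ?_
    have h5 : UB (d - d') := (hpU _ _ (hK.sub h2 h2')).1 h4
    have e1 : dc N β (e s' i) - dc N β (e s' j) =
        (dc N β (e s' i) - d) - (dc N β (e s' j) - d') + (d - d') := by abel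
    rw [e1]
    exact sUB.add (sUB.sub h3 h3') h5

end Pool.Agent.W941.UL
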