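import Mathlib
import Pool.Agent.W941.UL.Count

/-! The extension theorem. -/

namespace Pool.Agent.W941.UL

open Pool.Agent.Helper617.RM Pool.Agent.Helper317.Atr

universe u

set_option linter.unusedSectionVars false
set_option linter.unusedVariables false

variable {N : L2Structure.{u}} [IsModelRCA0 N] [Sig1 N]
variable {α : Type u} [AddCommGroup α] [Module N.M α] [Cod N α]
variable {β : Type u} [AddCommGroup β] [Module N.M β] [Cod N β]
variable {T : Set N.M} {R : N.M → N.M → Prop} {e : N.M → N.M → N.M}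

/-- comparison of the numbers of classes -/
def Cmp (e : N.M → N.M → N.M) (T : Set N.M) (R : N.M → N.M → Prop) (LA : N.M → N.M → α → Prop)
    (LB : N.M → N.M → β → Prop) : Prop :=
  (∀ p x n, Pm p → x ∈ T → Seqn e (fun a => LA p x a ∧ p • a = 0) (fun a => a = 0) n →
    Seqn e (fun a => LB p x a ∧ p • a = 0) (fun a => a = 0) n) ∧
  ∀ p x y n, Pm p → Sc R x y → Seqn e (fun a => LA p x a ∧ p • a = 0) (LA p y) n →
    Seqn e (fun a => LB p x a ∧ p • a = 0) (LB p y) n

/-- the map preserves the levels up to `X` -/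
def GoodK (R : N.M → N.M → Prop) (LA : N.M → N.M → α → Prop)
    (LB : N.M → N.M → β → Prop) (K : α → β → Prop) (X : N.M) : Prop :=
  ∀ p y, Pm p → R y X → ∀ a b, K a b → (LA p y a ↔ LB p y b)

/-- bounded relations -/
def Bdd (K : α → β → Prop) : Prop := ∃ b : N.M, ∀ a c, K a c → cd N a < b ∧ cd N c < b

theorem bdd_aux (u : α) (B p : N.M) : ∃ B' : N.M, ∀ a : α, cd N a < B → ∀ k : N.M, k < p →
    cd N (a + k • u) < B' := by
  obtain ⟨B', hB'⟩ := bounding (N := N) (Q := fun z w => ∀ x k, z = pr x k →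
      w = cd N (dc N α x + k • u)) (by
    refine D0.all (D0.all (D0.imp ?_ ?_))
    · exact D0.eq (Tm.var 3) ((Tm.var 1).pr (Tm.var 0))
    · exact D0.eqA (AG.var 2) (AA.cd ((AA.dc (AG.var 1)).add (AA.smul (AG.var 0) (AA.const u)))))
    (pr B p) (by
      intro z _
      by_cases h : ∃ x k, z = pr x k
      · obtain ⟨x, k, rfl⟩ := h
        refine ⟨cd N (dc N α x + k • u), fun x' k' h => ?_⟩
        obtain ⟨rfl, rfl⟩ := pr_inj h
        rfl
      · exact ⟨0, fun x k h' => absurd ⟨x, k, h'⟩ h⟩)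
  refine ⟨B', fun a ha k hk => ?_⟩
  obtain ⟨w, h1, h2⟩ := hB' (pr (cd N a) k) (pr_lt_pr (add_lt_add ha hk))
  have := h2 _ _ rfl
  rw [dc_cd] at this
  rw [← this]
  exact h1

theorem Kx_D {K : α → β → Prop} (hKd : P2 (N := N) K) (u : α) (h : β) :
    P2 (N := N) (Kx N.M K u h) := by
  refine D0.aex (D0.aex (D0.ex (D0.and ?_ (D0.and ?_ ?_))))
  · exact hKd.app (AA.dc (AG.var 2)) (AA.dc (AG.var 1))
  · exact D0.aeq (AA.dc (AG.var 3)) ((AA.dc (AG.var 2)).add (AA.smul (AG.var 0) (AA.const u)))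
  · exact D0.aeq (AA.dc (AG.var 4)) ((AA.dc (AG.var 1)).add (AA.smul (AG.var 0) (AA.const h)))

theorem Kx_Bdd {K : α → β → Prop} (hK : PI N.M K) (hb : Bdd (N := N) K) {p : N.M} (hp : Pm p)
    {u : α} {h : β} (hpp : K (p • u) (p • h)) : Bdd (N := N) (Kx N.M K u h) := by
  obtain ⟨b, hb⟩ := hb
  obtain ⟨B1, h1⟩ := bdd_aux u b p
  obtain ⟨B2, h2⟩ := bdd_aux h b p
  refine ⟨max B1 B2, ?_⟩
  rintro a c ⟨a0, b0, k, h3, rfl, rfl⟩
  obtain ⟨q, r, h4, h5⟩ := exists_div (zero_lt_one'.trans hp.1) k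
  have h6 : K (a0 + q • (p • u)) (b0 + q • (p • h)) := hK.add h3 (hK.smul q hpp)
  have e1 : a0 + k • u = a0 + q • (p • u) + r • u := by rw [h4, add_smul, mul_smul, add_assoc]
  have e2 : b0 + k • h = b0 + q • (p • h) + r • h := by rw [h4, add_smul, mul_smul, add_assoc]
  rw [e1, e2]
  exact ⟨lt_of_lt_of_le (h1 _ (hb _ _ h6).1 r h5) (le_max_left _ _),
    lt_of_lt_of_le (h2 _ (hb _ _ h6).2 r h5) (le_max_right _ _)⟩

section step

variable (hW : IsWellOrd N T R) {LA : N.M → N.M → α → Prop} {LB : N.M → N.M → β → Prop}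
  (hA : Lev T R LA) (hB : Lev T R LB) (he : Entf N e) (hC : Cmp e T R LA LB)

include hW hA hB he hC

theorem find_uh {K : α → β → Prop} (hK : PI N.M K) (hKd : P2 (N := N) K)
    (hbd : Bdd (N := N) K) {X X' : N.M} (hX : R X' X) (hne : X' ≠ X)
    (hG : GoodK R LA LB K X) {p : N.M} (hp : Pm p) {g : α} (hg : ∃ c, K (p • g) c)
    (hgn : ∀ c, ¬ K g c) :
    ∃ u h, (∃ a d, K a d ∧ u = g + a) ∧ (∀ a, ¬ K a h) ∧ K (p • u) (p • h) ∧
      ∀ y, R y X' → (LA p y u ∧ LB p y h) ∨
        ∀ a b, K a b → ¬ LA p y (u + a) ∧ ¬ LB p y (h + b) := by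
  obtain ⟨c0, hc0⟩ := hg
  have hX'T := (hW.dom _ _ hX).1
  have hRD : D0 (fun v => R (v 0) (v 1)) := D0.of_codeRel hW.rel
  have hbd' : ∃ b, ∀ a c, K a c → cd N a < b := by
    obtain ⟨b, hb⟩ := hbd
    exact ⟨b, fun a c h => (hb a c h).1⟩
  by_cases hI : ∃ a d, K a d ∧ LA p X' (g + a)
  · obtain ⟨a, d, had, hlev⟩ := hI
    set u := g + a with hu
    have hun : ∀ c, ¬ K u c := fun c hc => hgn (c - d) (by
      have := hK.sub hc had
      rwa [hu, add_sub_cancel_right] at this)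
    have hKpu : K (p • u) (c0 + p • d) := by
      rw [hu, smul_add]; exact hK.add hc0 (hK.smul p had)
    obtain ⟨X1, hsc, hX1⟩ := exists_sc hW hX hne
    have h1 : LB p X1 (c0 + p • d) :=
      (hG p X1 hp hX1 _ _ hKpu).1 ((hA.succ hW hsc _).2 ⟨u, hlev, rfl⟩)
    obtain ⟨h0, hh0, hb1⟩ := (hB.succ hW hsc _).1 h1
    rw [hb1] at hKpu
    have hSA := hA.sg hW p X' hX'T
    have hSB := hB.sg hW p X' hX'T
    by_cases hh : ∃ a2, K a2 h0
    · obtain ⟨a2, ha2⟩ := hh
      have h2 : LA p X' a2 := (hG p X' hp hX _ _ ha2).2 hh0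
      have h3 : p • a2 = p • u := hK.fun2 (hK.smul p ha2) hKpu
      obtain ⟨v', hv1, hv2, hv3⟩ := count he hK hKd hbd' (p := p) (WA := LA p X')
        (UA := fun a => a = 0) (WB := LB p X') (UB := fun a => a = 0)
        (hA.D (AG.const p) (AG.const X') (AA.dc (AG.var 0)))
        (D0.aeq (AA.dc (AG.var 0)) AA.zero)
        (hB.D (AG.const p) (AG.const X') (AA.dc (AG.var 0)))
        (D0.aeq (AA.dc (AG.var 0)) AA.zero) hSA
        ⟨rfl, fun h h' => by rw [h, h', add_zero], fun h => by rw [h, neg_zero],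
          fun k _ h => by rw [h, smul_zero]⟩ hSB
        ⟨rfl, fun h h' => by rw [h, h', add_zero], fun h => by rw [h, neg_zero],
          fun k _ h => by rw [h, smul_zero]⟩
        (fun a h => by rw [h]; exact hSA.zero) (fun a h => by rw [h]; exact hSB.zero)
        (fun a c h => hG p X' hp hX _ _ h)
        (fun a c h => ⟨fun h' => by rw [h'] at h; exact hK.inj1 h,
          fun h' => by rw [h'] at h; exact hK.inj2 h⟩)
        (fun a c h => by
          have h' := hK.smul p h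
          constructor
          · rintro ⟨w, hw, h4⟩
            rw [hw, smul_zero] at h4
            rw [h4] at h'
            exact ⟨0, rfl, by rw [hK.inj1 h', smul_zero]⟩
          · rintro ⟨w, hw, h4⟩
            rw [hw, smul_zero] at h4
            rw [h4] at h'
            exact ⟨0, rfl, by rw [hK.inj2 h', smul_zero]⟩)
        (fun n => hC.1 p X' n hp hX'T) (v := u - a2) (hSA.sub hlev h2)
        (by rw [smul_sub, h3, sub_self]) (fun a c hac h => by
          refine hun (h0 - c) ?_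
          have h5 := hK.sub ha2 hac
          have e1 : u = a2 - a := by
            have : u - a2 + a = 0 := h
            rw [eq_sub_iff_add_eq, ← sub_eq_zero, ← this]; abel
          rw [e1]; exact h5)
      refine ⟨u, h0 + v', ⟨a, d, had, rfl⟩, fun a3 h4 => ?_, ?_, fun y hy => Or.inl ?_⟩
      · refine hv3 (a2 - a3) (h0 - (h0 + v')) (hK.sub ha2 h4) ?_
        abel
      · rw [smul_add p h0 v', hv2, add_zero]; exact hKpu
      · exact ⟨hA.anti hW hy hlev, hB.anti hW hy (hSB.add hh0 hv1)⟩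
    · refine ⟨u, h0, ⟨a, d, had, rfl⟩, fun a3 h4 => hh ⟨a3, h4⟩, hKpu, fun y hy => Or.inl ?_⟩
      exact ⟨hA.anti hW hy hlev, hB.anti hW hy hh0⟩
  · have dP : D0 (fun v : Ctx N => ¬ ∃ a d, K a d ∧ LA p (v 0) (g + a)) := by
      refine (D0.aex (D0.aex (D0.and ?_ ?_))).not
      · exact hKd.app (AA.dc (AG.var 1)) (AA.dc (AG.var 0))
      · exact hA.D (AG.const p) (AG.var 2) ((AA.const g).add (AA.dc (AG.var 1)))
    obtain ⟨x0, hx0, hZ0, hmin⟩ := wo_least hW
      (Z := fun x => ¬ ∃ a d, K a d ∧ LA p x (g + a)) dP hX'T hI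
    have hx0X' : R x0 X' := hmin X' hX'T hI
    -- one level below `x0` works for all elements of the coset
    have hF : ∀ b : N.M, ∃ y, (R y x0 ∧ ¬ y = x0) ∧ ∀ a, cd N a < b → (∃ d, K a d) →
        ¬ ∃ w, LA p y w ∧ g + a = p • w := by
      intro b
      refine ind_D0 (P := fun b => ∃ y, (R y x0 ∧ ¬ y = x0) ∧ ∀ a, cd N a < b → (∃ d, K a d) →
        ¬ ∃ w, LA p y w ∧ g + a = p • w) ?_ ?_ ?_ b
      · refine D0.ex (D0.and (D0.and ?_ ?_) (D0.aall (D0.imp ?_ (D0.imp (D0.aex ?_)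
          (D0.aex (D0.and ?_ ?_)).not))))
        · exact hRD.rel (Tm.var 0) (Tm.const x0)
        · exact (D0.eq (Tm.var 0) (Tm.const x0)).not
        · exact D0.ltA (AA.dc (AG.var 0)).cd (AG.var 2)
        · exact hKd.app (AA.dc (AG.var 1)) (AA.dc (AG.var 0))
        · exact hA.D (AG.const p) (AG.var 2) (AA.dc (AG.var 0))
        · exact D0.aeq ((AA.const g).add (AA.dc (AG.var 1)))
            (AA.smul (AG.const p) (AA.dc (AG.var 0)))
      · have h1 : ¬ LA p x0 (g + 0) := fun h => hZ0 ⟨0, 0, hK.zero, h⟩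
        rw [hA.rec' p x0 hx0] at h1
        push Not at h1
        obtain ⟨y, hy1, hy2, -⟩ := h1
        exact ⟨y, ⟨hy1, hy2⟩, fun a ha => absurd ha (not_lt_of_ge (zero_le' _))⟩
      · rintro n ⟨y, ⟨hy1, hy2⟩, hy3⟩
        by_cases hn : ∃ a, cd N a = n ∧ ∃ d, K a d
        · obtain ⟨a, ha, d, hd⟩ := hn
          have h1 : ¬ LA p x0 (g + a) := fun h => hZ0 ⟨a, d, hd, h⟩
          rw [hA.rec' p x0 hx0] at h1
          push Not at h1
          obtain ⟨y', hy1', hy2', hy3'⟩ := h1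
          rcases hW.total y (hW.dom _ _ hy1).1 y' (hW.dom _ _ hy1').1 with h | h
          · refine ⟨y', ⟨hy1', hy2'⟩, fun a' ha' hd' => ?_⟩
            rintro ⟨w, hw1, hw2⟩
            rcases lt_or_eq_of_le (lt_add_one_iff'.1 ha') with h2 | h2
            · exact hy3 a' h2 hd' ⟨w, hA.anti hW h hw1, hw2⟩
            · rw [← ha] at h2
              rw [cd_inj h2] at hw2
              exact hy3' w hw1 hw2
          · refine ⟨y, ⟨hy1, hy2⟩, fun a' ha' hd' => ?_⟩
            rintro ⟨w, hw1, hw2⟩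
            rcases lt_or_eq_of_le (lt_add_one_iff'.1 ha') with h2 | h2
            · exact hy3 a' h2 hd' ⟨w, hw1, hw2⟩
            · rw [← ha] at h2
              rw [cd_inj h2] at hw2
              exact hy3' w (hA.anti hW h hw1) hw2
        · refine ⟨y, ⟨hy1, hy2⟩, fun a' ha' hd' => ?_⟩
          rcases lt_or_eq_of_le (lt_add_one_iff'.1 ha') with h2 | h2
          · exact hy3 a' h2 hd'
          · exact absurd ⟨a', h2, hd'⟩ hn
    obtain ⟨b, hb⟩ := hbd
    obtain ⟨y, ⟨hy1, hy2⟩, hy3⟩ := hF b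
    have hyT := (hW.dom _ _ hy1).1
    have hyX' : R y X' := hW.trans _ _ _ hy1 hx0X'
    have hyne : y ≠ X' := by
      rintro rfl
      exact hy2 (hW.antisymm _ _ hy1 hx0X')
    have hyP : ∃ a d, K a d ∧ LA p y (g + a) := by
      by_contra h
      exact hy2 (hW.antisymm _ _ hy1 (hmin y hyT h))
    obtain ⟨y1, hs1, hy1X'⟩ := exists_sc hW hyX' hyne
    have hy1X : R y1 X := hW.trans _ _ _ hy1X' hX
    have hy1ne : y1 ≠ X := by
      rintro rfl
      exact hne (hW.antisymm _ _ hX hy1X')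
    obtain ⟨y2, hs2, hy2X⟩ := exists_sc hW hy1X hy1ne
    have hyX : R y X := hW.trans _ _ _ hyX' hX
    have hy1T := (hW.dom _ _ hy1X).1
    have hF1 : ∀ a d, K a d → ¬ LA p y1 (g + a) := by
      intro a d had h
      exact hy3 a (hb a d had).1 ⟨d, had⟩ ((hA.succ hW hs1 _).1 h)
    have hSA := hA.sg hW p y hyT
    have hSB := hB.sg hW p y hyT
    have hSA1 := hA.sg hW p y1 hy1T
    have hSB1 := hB.sg hW p y1 hy1T
    -- the common conclusion
    have hfin : ∀ u h, (∃ a d, K a d ∧ u = g + a) → LA p y u → LB p y h → K (p • u) (p • h) →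
        (∀ a c, K a c → ¬ LB p y1 (h + c)) →
        ∃ u h, (∃ a d, K a d ∧ u = g + a) ∧ (∀ a, ¬ K a h) ∧ K (p • u) (p • h) ∧
          ∀ y, R y X' → (LA p y u ∧ LB p y h) ∨
            ∀ a b, K a b → ¬ LA p y (u + a) ∧ ¬ LB p y (h + b) := by
      rintro u h ⟨a, d, had, hu⟩ h1 h2 h3 h4
      refine ⟨u, h, ⟨a, d, had, hu⟩, fun a' ha' => ?_, h3, fun z hz => ?_⟩
      · refine h4 _ _ (hK.neg ha') ?_
        rw [add_neg_cancel]; exact hSB1.zero
      · have hzT := (hW.dom _ _ hz).1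
        by_cases hzy : R z y
        · exact Or.inl ⟨hA.anti hW hzy h1, hB.anti hW hzy h2⟩
        · have hyz : R y z := (hW.total z hzT y hyT).resolve_left hzy
          have hyzne : y ≠ z := by
            rintro rfl
            exact hzy (hW.refl y hyT)
          have hy1z : R y1 z := hs1.2.2 z hyz hyzne
          refine Or.inr fun a' b' hab => ⟨fun h5 => ?_, fun h5 => ?_⟩
          · refine hF1 (a + a') (d + b') (hK.add had hab) ?_
            have := hA.anti hW hy1z h5
            rwa [hu, add_assoc] at this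
          · exact h4 _ _ hab (hB.anti hW hy1z h5)
    by_cases hsub : ∃ a d, K a d ∧ LA p y (g + a) ∧ LA p y2 (p • (g + a))
    · obtain ⟨a, d, had, hlev, hlev2⟩ := hsub
      set u := g + a with hu
      have hKpu : K (p • u) (c0 + p • d) := by
        rw [hu, smul_add]; exact hK.add hc0 (hK.smul p had)
      obtain ⟨w, hw1, hw2⟩ := (hA.succ hW hs2 _).1 hlev2
      obtain ⟨h1, hh1, hb1⟩ := (hB.succ hW hs2 _).1 ((hG p y2 hp hy2X _ _ hKpu).1 hlev2)
      rw [hb1] at hKpu
      have hw1' : LA p y w := hA.anti hW hs1.1 hw1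
      obtain ⟨v', hv1, hv2, hv3⟩ := count he hK hKd hbd' (p := p) (WA := LA p y)
        (UA := LA p y1) (WB := LB p y) (UB := LB p y1)
        (hA.D (AG.const p) (AG.const y) (AA.dc (AG.var 0)))
        (hA.D (AG.const p) (AG.const y1) (AA.dc (AG.var 0)))
        (hB.D (AG.const p) (AG.const y) (AA.dc (AG.var 0)))
        (hB.D (AG.const p) (AG.const y1) (AA.dc (AG.var 0))) hSA hSA1 hSB hSB1
        (fun a h => hA.anti hW hs1.1 h) (fun a h => hB.anti hW hs1.1 h)
        (fun a c h => hG p y hp hyX _ _ h) (fun a c h => hG p y1 hp hy1X _ _ h)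
        (fun a c h => by
          have h' := hG p y2 hp hy2X _ _ (hK.smul p h)
          rw [hA.succ hW hs2, hB.succ hW hs2] at h'
          exact h')
        (fun n => hC.2 p y y1 n hp hs1) (v := u - w) (hSA.sub hlev hw1')
        (by rw [smul_sub, hw2, sub_self]) (fun a' c hac h => by
          refine hF1 (a + a') (d + c) (hK.add had hac) ?_
          have e1 : g + (a + a') = (u - w + a') + w := by rw [hu]; abel
          rw [e1]
          exact hSA1.add h hw1)
      refine hfin u (h1 + v') ⟨a, d, had, rfl⟩ hlev (hSB.add (hB.anti hW hs1.1 hh1) hv1) ?_ ?_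
      · rw [smul_add p h1 v', hv2, add_zero]; exact hKpu
      · intro a' c hac h
        refine hv3 a' c hac ?_
        have e1 : v' + c = (h1 + v' + c) - h1 := by abel
        rw [e1]
        exact hSB1.sub h hh1
    · obtain ⟨a, d, had, hlev⟩ := hyP
      set u := g + a with hu
      have hKpu : K (p • u) (c0 + p • d) := by
        rw [hu, smul_add]; exact hK.add hc0 (hK.smul p had)
      obtain ⟨h, hh1, hb1⟩ := (hB.succ hW hs1 _).1
        ((hG p y1 hp hy1X _ _ hKpu).1 ((hA.succ hW hs1 _).2 ⟨u, hlev, rfl⟩))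
      rw [hb1] at hKpu
      refine hfin u h ⟨a, d, had, rfl⟩ hlev hh1 hKpu ?_
      intro a' c hac h2
      have h3 : LB p y c := by
        have := hSB.sub (hB.anti hW hs1.1 h2) hh1
        simpa using this
      have h4 : LA p y a' := (hG p y hp hyX _ _ hac).2 h3
      refine hsub ⟨a + a', d + c, hK.add had hac, ?_, ?_⟩
      · rw [← add_assoc, ← hu]; exact hSA.add hlev h4
      · rw [← add_assoc, ← hu]
        have h5 : K (p • (u + a')) (p • (h + c)) := by
          rw [smul_add p u a', smul_add p h c]; exact hK.add hKpu (hK.smul p hac)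
        exact (hG p y2 hp hy2X _ _ h5).2 ((hB.succ hW hs2 _).2 ⟨_, h2, rfl⟩)

theorem ext_step {K : α → β → Prop} (hK : PI N.M K) (hKd : P2 (N := N) K)
    (hbd : Bdd (N := N) K) {X X' : N.M} (hX : R X' X) (hne : X' ≠ X)
    (hG : GoodK R LA LB K X) {p : N.M} (hp : Pm p) {g : α} (hg : ∃ c, K (p • g) c) :
    ∃ K' : α → β → Prop, PI N.M K' ∧ P2 (N := N) K' ∧ Bdd (N := N) K' ∧
      (∀ a b, K a b → K' a b) ∧ GoodK R LA LB K' X' ∧ ∃ c, K' g c := by
  have hG' : GoodK R LA LB K X' := fun p y hp hy => hG p y hp (hW.trans _ _ _ hy hX)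
  by_cases hgn : ∃ c, K g c
  · exact ⟨K, hK, hKd, hbd, fun _ _ h => h, hG', hgn⟩
  · push Not at hgn
    obtain ⟨u, h, ⟨a, d, had, hu⟩, h2, h3, h4⟩ :=
      find_uh hW hA hB he hC hK hKd hbd hX hne hG hp hg hgn
    have hun : ∀ c, ¬ K u c := fun c hc => hgn (c - d) (by
      have := hK.sub hc had
      rwa [hu, add_sub_cancel_right] at this)
    have hPI := Kx_PI hK hp.pr h3 hun h2
    refine ⟨Kx N.M K u h, hPI, Kx_D hKd u h, Kx_Bdd hK hbd hp h3,
      fun a b hab => Kx_mono hab, ?_, ?_⟩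
    · intro q y hq hy
      have hyT := (hW.dom _ _ hy).1
      by_cases hqp : q = p
      · subst hqp
        exact Kx_same hK hp.pr h3 (hA.sg hW q y hyT) (hB.sg hW q y hyT) (hG' q y hp hy) (h4 y hy)
      · exact Kx_other hK h3 (hA.sg hW q y hyT) (hB.sg hW q y hyT)
          (hA.refl hW (hp.bez hq (Ne.symm hqp)) y hyT) (hB.refl hW (hp.bez hq (Ne.symm hqp)) y hyT)
          (hG' q y hq hy)
    · refine ⟨h - d, ?_⟩
      have h5 := hPI.sub (Kx_new hK (u := u) (h := h)) (Kx_mono (R := N.M) (u := u) (h := h) had)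
      have e1 : u - a = g := by rw [hu, add_sub_cancel_right]
      rw [e1] at h5
      exact h5

end step

end Pool.Agent.W941.UL
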