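import Mathlib
import Pool.Agent.W941.UL.Ext

/-! Comparison of the invariants. -/

namespace Pool.Agent.W941.UL

open Pool.Agent.Helper617.RM Pool.Agent.Helper317.Atr

universe u

set_option linter.unusedSectionVars false
set_option linter.unusedVariables false

variable {N : L2Structure.{u}} [IsModelRCA0 N] [Sig1 N]
variable {α : Type u} [AddCommGroup α] [Module N.M α] [Cod N α]
variable {β : Type u} [AddCommGroup β] [Module N.M β] [Cod N β]
variable {γ : Type u} [AddCommGroup γ] [Module N.M γ] [Cod N γ]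
variable {T : Set N.M} {R : N.M → N.M → Prop} {e : N.M → N.M → N.M}

/-- definable maps -/
def DM (N : L2Structure.{u}) [IsModelRCA0 N] [Sig1 N] {α β : Type u} [AddCommGroup α]
    [Module N.M α] [Cod N α] [AddCommGroup β] [Module N.M β] [Cod N β] (φ : α → β) : Prop :=
  AA (fun v : Ctx N => φ (dc N α (v 0)))

theorem DM.app {φ : α → β} (h : DM N φ) {g : Ctx N → α} (hg : AA g) : AA (fun v => φ (g v)) := by
  have := AG.op1 (f := fun x => cd N (φ (dc N α x)))
    (AG.gf (f := fun x => cd N (φ (dc N α x))) h) hg.cd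
  simp only [dc_cd] at this
  exact this

theorem DM.comp {φ : α → β} {ψ : β → γ} (hψ : DM N ψ) (hφ : DM N φ) : DM N (fun a => ψ (φ a)) :=
  hψ.app (hφ.app (AA.dc (AG.var 0)))

/-- additive definable maps are linear -/
theorem DM.smul {φ : α → β} (h : DM N φ) (hadd : ∀ a b, φ (a + b) = φ a + φ b) (k : N.M) (a : α) :
    φ (k • a) = k • φ a := by
  have h0 : φ 0 = 0 := by
    have := hadd 0 0
    rw [add_zero] at this
    exact left_eq_add.1 this
  refine ind_D0 (P := fun k => φ (k • a) = k • φ a) ?_ ?_ ?_ k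
  · exact D0.aeq (h.app (AA.smul (AG.var 0) (AA.const a))) (AA.smul (AG.var 0) (AA.const _))
  · rw [zero_smul, zero_smul, h0]
  · intro n hn
    rw [add_smul, one_smul, hadd, hn, add_smul, one_smul]

theorem Lev.map {LA : N.M → N.M → α → Prop} {LB : N.M → N.M → β → Prop} (hW : IsWellOrd N T R)
    (hA : Lev T R LA) (hB : Lev T R LB) {φ : α → β} (h : DM N φ)
    (hadd : ∀ a b, φ (a + b) = φ a + φ b) (p : N.M) :
    ∀ x, x ∈ T → ∀ u, LA p x u → LB p x (φ u) := by
  refine wo_ind hW (Z := fun x => ∀ u, LA p x u → LB p x (φ u)) ?_ ?_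
  · refine D0.aall (D0.imp ?_ ?_)
    · exact hA.D (AG.const p) (AG.var 1) (AA.dc (AG.var 0))
    · exact hB.D (AG.const p) (AG.var 1) (h.app (AA.dc (AG.var 0)))
  · intro x hx ih u hu
    rw [hB.rec' p x hx]
    intro y hy hyx
    obtain ⟨w, h1, h2⟩ := (hA.rec' p x hx u).1 hu y hy hyx
    exact ⟨φ w, ih y (hW.dom _ _ hy).1 hy hyx w h1, by rw [h2, h.smul hadd]⟩

/-- comparison for a retract -/
theorem cmp_retract (he : Entf N e) (hW : IsWellOrd N T R) {LA : N.M → N.M → α → Prop}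
    {LB : N.M → N.M → β → Prop} (hA : Lev T R LA) (hB : Lev T R LB) {i : α → β} {r : β → α}
    (hi : DM N i) (hr : DM N r) (iadd : ∀ a b, i (a + b) = i a + i b)
    (radd : ∀ a b, r (a + b) = r a + r b) (hri : ∀ a, r (i a) = a) : Cmp e T R LA LB := by
  have i0 : i 0 = 0 := by
    have := iadd 0 0
    rw [add_zero] at this
    exact left_eq_add.1 this
  have isub : ∀ a b, i (a - b) = i a - i b := fun a b => by
    have := iadd (a - b) b
    rw [sub_add_cancel] at this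
    rw [this, add_sub_cancel_right]
  have key : ∀ p x, x ∈ T → ∀ (UA : α → Prop) (UB : β → Prop), (∀ a, UB (i a) → UA a) → ∀ n,
      Seqn e (fun a => LA p x a ∧ p • a = 0) UA n →
      Seqn e (fun a => LB p x a ∧ p • a = 0) UB n := by
    rintro p x hx UA UB hU n ⟨s, h1, h2⟩
    refine Seqn_fun he (g := fun k => i (dc N α (e s k))) (hi.app (he.A (AG.const s) (AG.var 0)))
      (fun k hk => ⟨Lev.map hW hA hB hi iadd p x hx _ (h1 k hk).1, ?_⟩) (fun k hk l hl h => ?_)
    · rw [← hi.smul iadd, (h1 k hk).2, i0]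
    · rw [← isub] at h
      exact h2 k hk l hl (hU _ h)
  refine ⟨fun p x n hp hx h => key p x hx _ _ (fun a ha => ?_) n h,
    fun p x y n hp hxy h => key p x (hW.dom _ _ hxy.1).1 _ _ (fun a ha => ?_) n h⟩
  · have := hri a
    rw [ha, ← i0, hri] at this
    exact this.symm
  · have := Lev.map hW hB hA hr radd p y (hW.dom _ _ hxy.1).2 _ ha
    rwa [hri] at this

/-! ### products -/

/-- the first projection -/
noncomputable def p1 (N : L2Structure.{u}) [IsModelRCA0 N] : N.M → N.M :=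
  (TH.exists_proj N).choose

/-- the second projection -/
noncomputable def p2 (N : L2Structure.{u}) [IsModelRCA0 N] : N.M → N.M :=
  (TH.exists_proj N).choose_spec.choose

theorem p1_pr (x y : N.M) : p1 N (pr x y) = x :=
  (TH.exists_proj N).choose_spec.choose_spec.2.2.1 x y

theorem p2_pr (x y : N.M) : p2 N (pr x y) = y :=
  (TH.exists_proj N).choose_spec.choose_spec.2.2.2 x y

theorem p1_A {g : Ctx N → N.M} (hg : AG g) : AG (fun v => p1 N (g v)) :=
  AG.op1 (TH.exists_proj N).choose_spec.choose_spec.1 hg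

theorem p2_A {g : Ctx N → N.M} (hg : AG g) : AG (fun v => p2 N (g v)) :=
  AG.op1 (TH.exists_proj N).choose_spec.choose_spec.2.1 hg

noncomputable instance prodCod : Cod N (α × β) where
  code z := pr (cd N z.1) (cd N z.2)
  dc x := (dc N α (p1 N x), dc N β (p2 N x))
  dc_code z := by simp only [p1_pr, p2_pr, dc_cd]
  cdD := D0.eqA (AG.var 1) (AG.pr (AA.dc (p1_A (AG.var 0))).cd (AA.dc (p2_A (AG.var 0))).cd)
  addD := D0.eqA (AG.var 2) (AG.pr
    ((AA.dc (p1_A (AG.var 0))).add (AA.dc (p1_A (AG.var 1)))).cd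
    ((AA.dc (p2_A (AG.var 0))).add (AA.dc (p2_A (AG.var 1)))).cd)
  negD := D0.eqA (AG.var 1) (AG.pr (AA.dc (p1_A (AG.var 0))).neg.cd
    (AA.dc (p2_A (AG.var 0))).neg.cd)
  smulD := D0.eqA (AG.var 2) (AG.pr (AA.smul (AG.var 0) (AA.dc (p1_A (AG.var 1)))).cd
    (AA.smul (AG.var 0) (AA.dc (p2_A (AG.var 1)))).cd)

theorem cd_prod (z : α × β) : cd N z = pr (cd N z.1) (cd N z.2) := rfl

theorem AA.prod {g : Ctx N → α} {g' : Ctx N → β} (hg : AA g) (hg' : AA g') :
    AA (fun v => (g v, g' v)) := AG.pr hg.cd hg'.cd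

theorem AA.fst {g : Ctx N → α × β} (hg : AA g) : AA (fun v => (g v).1) := by
  have := p1_A hg.cd
  simp only [cd_prod, p1_pr] at this
  exact this

theorem AA.snd {g : Ctx N → α × β} (hg : AA g) : AA (fun v => (g v).2) := by
  have := p2_A hg.cd
  simp only [cd_prod, p2_pr] at this
  exact this

theorem Lev.prod {LA : N.M → N.M → α → Prop} {LB : N.M → N.M → β → Prop}
    (hA : Lev T R LA) (hB : Lev T R LB) :
    Lev T R (fun p x (z : α × β) => LA p x z.1 ∧ LB p x z.2) where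
  def' := D0.and (hA.D (AG.var 0) (AG.var 1) (AA.dc (AG.var 2)).fst)
    (hB.D (AG.var 0) (AG.var 1) (AA.dc (AG.var 2)).snd)
  rec' p x hx z := by
    rw [hA.rec' p x hx, hB.rec' p x hx]
    constructor
    · rintro ⟨h1, h2⟩ y hy hyx
      obtain ⟨w, h3, h4⟩ := h1 y hy hyx
      obtain ⟨w', h3', h4'⟩ := h2 y hy hyx
      exact ⟨(w, w'), ⟨h3, h3'⟩, Prod.ext h4 h4'⟩
    · intro h
      refine ⟨fun y hy hyx => ?_, fun y hy hyx => ?_⟩
      · obtain ⟨w, h1, h2⟩ := h y hy hyx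
        exact ⟨w.1, h1.1, by rw [h2]; rfl⟩
      · obtain ⟨w, h1, h2⟩ := h y hy hyx
        exact ⟨w.2, h1.2, by rw [h2]; rfl⟩

/-! ### squares -/

/-- a complete system of representatives of maximal size -/
theorem exists_rep (he : Entf N e) {P U : α → Prop} (hP : P1 (N := N) P) (hU : P1 (N := N) U)
    (sU : Sg N.M U) {n : N.M} (hn : ¬ Seqn e P U n) :
    ∃ m r, m < n ∧ ∀ a, P a → ∃ i, i < m ∧ U (a - dc N α (e r i)) := by
  obtain ⟨k, hk, hmin⟩ := lnp (P := fun n => ¬ Seqn e P U n) (Seqn_D he hP hU).not hn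
  have hkn : k ≤ n := by
    by_contra h
    exact hmin n (not_le.1 h) hn
  rcases eq_zero_or_succ k with h | ⟨m, h⟩
  · exfalso
    apply hk
    rw [h]
    exact ⟨0, fun i hi => absurd hi (not_lt_of_ge (zero_le' i)),
      fun i hi => absurd hi (not_lt_of_ge (zero_le' i))⟩
  · have hm : Seqn e P U m := by
      by_contra h'
      exact hmin m (by rw [h]; exact lt_succ_self' m) h'
    obtain ⟨r, hr1, hr2⟩ := hm
    refine ⟨m, r, lt_of_lt_of_le (lt_succ_self' m) (by rw [← h]; exact hkn), fun a ha => ?_⟩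
    by_contra hcon
    push Not at hcon
    apply hk
    rw [h]
    refine Seqn_fun he (g := fun i => if i < m then dc N α (e r i) else a) ?_ ?_ ?_
    · exact AA.ite (D0.lt (Tm.var 0) (Tm.const m)) (he.A (AG.const r) (AG.var 0)) (AA.const a)
    · intro i hi
      by_cases hic : i < m
      · simp only [hic, if_true]; exact hr1 i hic
      · simp only [hic, if_false]; exact ha
    · intro i hi j hj
      have hjc : j < m := lt_of_lt_of_le hj (lt_add_one_iff'.1 hi)
      by_cases hic : i < m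
      · simp only [hic, hjc, if_true]; exact hr2 i hic j hj
      · simp only [hic, hjc, if_true, if_false]; exact hcon j hjc

theorem cmp_sq (he : Entf N e) {PA UA : α → Prop} {PB UB : β → Prop}
    (dPB : P1 (N := N) PB) (dUB : P1 (N := N) UB) (sUA : Sg N.M UA) (sUB : Sg N.M UB)
    {Φ : α × α → β × β} (hΦ : DM N Φ) (hsub : ∀ z z', Φ (z - z') = Φ z - Φ z')
    (hP : ∀ z, PA z.1 → PA z.2 → PB (Φ z).1 ∧ PB (Φ z).2)
    (hU : ∀ z, UB (Φ z).1 → UB (Φ z).2 → UA z.1 ∧ UA z.2) {n : N.M}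
    (h : Seqn e PA UA n) : Seqn e PB UB n := by
  by_contra hn
  obtain ⟨m, r, hmn, hr⟩ := exists_rep he dPB dUB sUB hn
  obtain ⟨s, hs1, hs2⟩ := h
  have hn0 : 0 < n := lt_of_le_of_lt (zero_le' m) hmn
  obtain ⟨q, hq, hq2⟩ := choiceN (N := N) (Q := fun k q => ∃ t, k = q * n + t ∧ t < n)
    (D0.ex (D0.and (D0.eq (Tm.var 1) (((Tm.var 2).mul (Tm.const n)).add (Tm.var 0)))
      (D0.lt (Tm.var 0) (Tm.const n))))
  obtain ⟨t, ht, ht2⟩ := choiceN (N := N) (Q := fun k t => k = q k * n + t ∧ t < n)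
    (D0.and (D0.eqA (AG.var 0) (AG.add (AG.mul (AG.op1 (AG.gf hq) (AG.var 0)) (AG.const n))
      (AG.var 1))) (D0.lt (Tm.var 1) (Tm.const n)))
  have hqt : ∀ k, k = q k * n + t k ∧ t k < n := by
    intro k
    obtain ⟨a, b, h1, h2⟩ := exists_div hn0 k
    exact ht2 k (hq2 k ⟨a, b, h1, h2⟩)
  have hz : AA (fun v : Ctx N => Φ (dc N α (e s (q (v 0))), dc N α (e s (t (v 0))))) :=
    hΦ.app ((he.A (AG.const s) hq).prod (he.A (AG.const s) ht))
  obtain ⟨κ1, hκ1, hκ1'⟩ := choiceN (N := N) (Q := fun k i => i < m ∧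
    UB ((Φ (dc N α (e s (q k)), dc N α (e s (t k)))).1 - dc N β (e r i))) (by
      refine D0.and (D0.lt (Tm.var 1) (Tm.const m)) (dUB.app (AA.sub ?_ ?_))
      · exact hz.fst
      · exact he.A (AG.const r) (AG.var 1))
  obtain ⟨κ2, hκ2, hκ2'⟩ := choiceN (N := N) (Q := fun k i => i < m ∧
    UB ((Φ (dc N α (e s (q k)), dc N α (e s (t k)))).2 - dc N β (e r i))) (by
      refine D0.and (D0.lt (Tm.var 1) (Tm.const m)) (dUB.app (AA.sub ?_ ?_))
      · exact hz.snd
      · exact he.A (AG.const r) (AG.var 1))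
  have hqlt : ∀ k, k ≤ m * m → q k < n := by
    intro k hk
    by_contra hcon
    push Not at hcon
    have h1 : n * n ≤ k := by
      rw [(hqt k).1]
      exact le_add_of_le_of_nonneg (mul_le_mul' hcon le_rfl) (zero_le' _)
    have h2 : m * m < n * n := mul_self_lt_mul_self (zero_le' m) hmn
    exact absurd (h1.trans hk) (not_le_of_gt h2)
  have hκ : ∀ k, k ≤ m * m → (κ1 k < m ∧
      UB ((Φ (dc N α (e s (q k)), dc N α (e s (t k)))).1 - dc N β (e r (κ1 k)))) ∧ (κ2 k < m ∧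
      UB ((Φ (dc N α (e s (q k)), dc N α (e s (t k)))).2 - dc N β (e r (κ2 k)))) := by
    intro k hk
    have h1 := hP (dc N α (e s (q k)), dc N α (e s (t k))) (hs1 _ (hqlt k hk)) (hs1 _ (hqt k).2)
    exact ⟨hκ1' k (hr _ h1.1), hκ2' k (hr _ h1.2)⟩
  obtain ⟨k, k', hkk, hk', hEq⟩ := TH.php (A := fun k => κ1 k * m + κ2 k)
    (AG.gf (f := fun k => κ1 k * m + κ2 k) (AG.add (AG.mul hκ1 (AG.const m)) hκ2)) (m * m) (by
      intro k hk
      obtain ⟨⟨h1, -⟩, h2, -⟩ := hκ k hk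
      show κ1 k * m + κ2 k < m * m
      calc κ1 k * m + κ2 k < κ1 k * m + m := add_lt_add_of_le_of_lt le_rfl h2
        _ = (κ1 k + 1) * m := by ring
        _ ≤ m * m := mul_le_mul' (add_one_le_iff'.2 h1) le_rfl)
  obtain ⟨⟨h1, h2⟩, h3, h4⟩ := hκ k (hkk.le.trans hk')
  obtain ⟨⟨h1', h2'⟩, h3', h4'⟩ := hκ k' hk'
  have hE : κ1 k = κ1 k' ∧ κ2 k = κ2 k' := by
    have hEq' : κ1 k * m + κ2 k = κ1 k' * m + κ2 k' := hEq
    rcases lt_trichotomy (κ1 k) (κ1 k') with h5 | h5 | h5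
    · exfalso
      have h6 : κ1 k * m + κ2 k < κ1 k' * m + κ2 k' := by
        calc κ1 k * m + κ2 k < κ1 k * m + m := add_lt_add_of_le_of_lt le_rfl h3
          _ = (κ1 k + 1) * m := by ring
          _ ≤ κ1 k' * m := mul_le_mul' (add_one_le_iff'.2 h5) le_rfl
          _ ≤ κ1 k' * m + κ2 k' := le_add_of_nonneg_right (zero_le' _)
      exact absurd hEq' h6.ne
    · rw [h5] at hEq'
      exact ⟨h5, add_left_cancel hEq'⟩
    · exfalso
      have h6 : κ1 k' * m + κ2 k' < κ1 k * m + κ2 k := by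
        calc κ1 k' * m + κ2 k' < κ1 k' * m + m := add_lt_add_of_le_of_lt le_rfl h3'
          _ = (κ1 k' + 1) * m := by ring
          _ ≤ κ1 k * m := mul_le_mul' (add_one_le_iff'.2 h5) le_rfl
          _ ≤ κ1 k * m + κ2 k := le_add_of_nonneg_right (zero_le' _)
      exact absurd hEq' h6.ne'
  rw [← hE.1] at h2'
  rw [← hE.2] at h4'
  have h5 := hU ((dc N α (e s (q k)), dc N α (e s (t k))) -
      (dc N α (e s (q k')), dc N α (e s (t k')))) (by
        rw [hsub]
        have := sUB.sub h2 h2'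
        rwa [sub_sub_sub_cancel_right] at this) (by
        rw [hsub]
        have := sUB.sub h4 h4'
        rwa [sub_sub_sub_cancel_right] at this)
  have huniq : ∀ i j, i < n → j < n → UA (dc N α (e s i) - dc N α (e s j)) → i = j := by
    intro i j hi hj hij
    rcases lt_trichotomy i j with h6 | h6 | h6
    · exact absurd (by have := sUA.neg hij; rwa [neg_sub] at this) (hs2 j hj i h6)
    · exact h6
    · exact absurd hij (hs2 i hi j h6)
  have h6 := huniq _ _ (hqlt k (hkk.le.trans hk')) (hqlt k' hk') h5.1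
  have h7 := huniq _ _ (hqt k).2 (hqt k').2 h5.2
  have h8 : k = k' := by rw [(hqt k).1, (hqt k').1, h6, h7]
  exact absurd h8 hkk.ne

theorem Sg_zero : Sg N.M (fun a : α => a = 0) :=
  ⟨rfl, fun h h' => by rw [h, h', add_zero], fun h => by rw [h, neg_zero],
    fun k _ h => by rw [h, smul_zero]⟩

/-- comparison for squares -/
theorem cmp_square (he : Entf N e) (hW : IsWellOrd N T R) {LA : N.M → N.M → α → Prop}
    {LB : N.M → N.M → β → Prop} (hA : Lev T R LA) (hB : Lev T R LB) {Φ : α × α → β × β}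
    {Ψ : β × β → α × α} (hΦ : DM N Φ) (hΨ : DM N Ψ) (Φadd : ∀ a b, Φ (a + b) = Φ a + Φ b)
    (Ψadd : ∀ a b, Ψ (a + b) = Ψ a + Ψ b) (hΨΦ : ∀ a, Ψ (Φ a) = a) : Cmp e T R LA LB := by
  have Φ0 : Φ 0 = 0 := by
    have := Φadd 0 0
    rw [add_zero] at this
    exact left_eq_add.1 this
  have Φsub : ∀ a b, Φ (a - b) = Φ a - Φ b := fun a b => by
    have := Φadd (a - b) b
    rw [sub_add_cancel] at this
    rw [this, add_sub_cancel_right]
  have hP : ∀ p x, x ∈ T → ∀ z : α × α, (LA p x z.1 ∧ p • z.1 = 0) → (LA p x z.2 ∧ p • z.2 = 0) →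
      (LB p x (Φ z).1 ∧ p • (Φ z).1 = 0) ∧ (LB p x (Φ z).2 ∧ p • (Φ z).2 = 0) := by
    intro p x hx z h1 h2
    have h3 := Lev.map hW (hA.prod hA) (hB.prod hB) hΦ Φadd p x hx z ⟨h1.1, h2.1⟩
    have h4 : p • Φ z = 0 := by
      rw [← hΦ.smul Φadd]
      have : p • z = 0 := Prod.ext h1.2 h2.2
      rw [this, Φ0]
    exact ⟨⟨h3.1, congrArg Prod.fst h4⟩, h3.2, congrArg Prod.snd h4⟩
  have dP : ∀ p x, P1 (N := N) (fun b => LB p x b ∧ p • b = 0) := fun p x =>
    D0.and (hB.D (AG.const p) (AG.const x) (AA.dc (AG.var 0)))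
      (D0.aeq (AA.smul (AG.const p) (AA.dc (AG.var 0))) AA.zero)
  refine ⟨fun p x n hp hx h => ?_, fun p x y n hp hxy h => ?_⟩
  · refine cmp_sq (UA := fun a => a = 0) (UB := fun a => a = 0) he (dP p x)
      (D0.aeq (AA.dc (AG.var 0)) AA.zero) Sg_zero Sg_zero hΦ Φsub (hP p x hx)
      (fun z h1 h2 => ?_) h
    have h3 : Φ z = 0 := Prod.ext h1 h2
    have h4 : z = 0 := by rw [← hΨΦ z, h3, ← Φ0, hΨΦ]
    rw [h4]; exact ⟨rfl, rfl⟩
  · have hy := (hW.dom _ _ hxy.1).2
    have hx := (hW.dom _ _ hxy.1).1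
    refine cmp_sq he (dP p x) (hB.D (AG.const p) (AG.const y) (AA.dc (AG.var 0)))
      (hA.sg hW p y hy) (hB.sg hW p y hy) hΦ Φsub (hP p x hx) (fun z h1 h2 => ?_) h
    have h3 := Lev.map hW (hB.prod hB) (hA.prod hA) hΨ Ψadd p y hy (Φ z) ⟨h1, h2⟩
    rw [hΨΦ] at h3
    exact h3

end Pool.Agent.W941.UL
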