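import Mathlib
import Pool.Agent.W941.UL.Cmp
import Pool.Agent.W941.UL.Defs

/-! From groups of the structure to coded groups. -/

namespace Pool.Agent.W941.UL

open Pool.Agent.Helper617.RM Pool.Agent.Helper317.Atr

universe u

set_option linter.unusedSectionVars false
set_option linter.unusedVariables false

variable {N : L2Structure.{u}} [IsModelRCA0 N] [Sig1 N]

theorem pair_eq (x y : N.M) : N.pair x y = pr x y := rfl

open Classical in
/-- retraction to the carrier -/
noncomputable def rt (G : Grp N) (x : N.M) : N.M := if x ∈ G.D then x else G.zero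

section grp

variable {G : Grp N} (hG : IsAbGrp N G)

theorem rt_of {x : N.M} (hx : x ∈ G.D) : rt G x = x := by unfold rt; rw [if_pos hx]

include hG

theorem rt_mem (x : N.M) : rt G x ∈ G.D := by
  unfold rt
  by_cases h : x ∈ G.D
  · rw [if_pos h]; exact h
  · rw [if_neg h]; exact hG.zero_mem

theorem rt_A {g : Ctx N → N.M} (hg : AG g) : AG (fun v => rt G (g v)) :=
  AG.ite (D0.memA hg hG.memIn) hg (AG.const G.zero)

omit hG in
/-- addition -/
noncomputable def A2 (G : Grp N) (x y : N.M) : N.M := G.add (rt G x) (rt G y)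

theorem A2_A {g g' : Ctx N → N.M} (hg : AG g) (hg' : AG g') : AG (fun v => A2 G (g v) (g' v)) := by
  refine AG.op2 (f := fun x y => A2 G x y) ?_ hg hg'
  refine D0.congr (D0.memA (AG.pr (AG.pr (rt_A hG (AG.var 0)) (rt_A hG (AG.var 1))) (AG.var 2))
    hG.addIn) fun v => ?_
  constructor
  · rintro ⟨x, hx, y, hy, he⟩
    obtain ⟨h1, h2⟩ := pr_inj he
    obtain ⟨h3, h4⟩ := pr_inj h1
    rw [h2, ← h3, ← h4]; rfl
  · intro h
    exact ⟨_, rt_mem hG _, _, rt_mem hG _, by rw [h]; rfl⟩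

theorem exists_mk (x : N.M) : ∃ Φ : N.M → N.M, H645R2.R.GF Φ ∧ Φ 0 = G.zero ∧
    ∀ n, Φ (n + 1) = A2 G (Φ n) x :=
  TH.prec (N := N) (st := fun n w => A2 G w x) (H645R2.R.D1.of
    (D0.eqA (AG.var 2) (A2_A hG (AG.var 1) (AG.const x)))) G.zero

/-- multiples -/
noncomputable def Mk (k x : N.M) : N.M := (exists_mk hG x).choose k

theorem Mk_zero (x : N.M) : Mk hG 0 x = G.zero := (exists_mk hG x).choose_spec.2.1

theorem Mk_succ (k x : N.M) : Mk hG (k + 1) x = A2 G (Mk hG k x) x :=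
  (exists_mk hG x).choose_spec.2.2 k

theorem Mk_A {g g' : Ctx N → N.M} (hg : AG g) (hg' : AG g') :
    AG (fun v => Mk hG (g v) (g' v)) := by
  obtain ⟨e, he⟩ := exists_entf N
  have hE : ∀ {s i : Ctx N → N.M}, AG s → AG i → AG (fun v => e (s v) (i v)) := fun hs hi =>
    AG.op2 he.def' hs hi
  refine AG.op2 (f := fun x y => Mk hG x y) ?_ hg hg'
  refine D0.congr (R := fun v => ∃ s, e s 0 = G.zero ∧ (∀ i, i < v 0 →
    e s (i + 1) = A2 G (e s i) (v 1)) ∧ e s (v 0) = v 2) ?_ fun v => ?_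
  · refine D0.ex (D0.and ?_ (D0.and (D0.all (D0.imp ?_ ?_)) ?_))
    · exact D0.eqA (hE (AG.var 0) (AG.const 0)) (AG.const _)
    · exact D0.lt (Tm.var 0) (Tm.var 2)
    · exact D0.eqA (hE (AG.var 1) (AG.add (AG.var 0) (AG.const 1)))
        (A2_A hG (hE (AG.var 1) (AG.var 0)) (AG.var 3))
    · exact D0.eqA (hE (AG.var 0) (AG.var 1)) (AG.var 3)
  · constructor
    · rintro ⟨s, h1, h2, h3⟩
      have key : ∀ i, i ≤ v 0 → e s i = Mk hG i (v 1) := by
        intro i
        refine ind_D0 (P := fun i => i ≤ v 0 → e s i = Mk hG i (v 1)) ?_ ?_ ?_ i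
        · refine D0.imp (D0.le (Tm.var 0) (Tm.const _)) (D0.eqA (hE (AG.const _) (AG.var 0)) ?_)
          exact AG.op1 (exists_mk hG (v 1)).choose_spec.1 (AG.var 0)
        · intro _; rw [h1, Mk_zero]
        · intro n ih hn
          have hn' : n < v 0 := add_one_le_iff'.1 hn
          rw [h2 n hn', ih hn'.le, Mk_succ]
      rw [← h3, key _ le_rfl]
    · intro h
      obtain ⟨s, hs⟩ := he.get (fun i => Mk hG i (v 1)) (exists_mk hG (v 1)).choose_spec.1
        (v 0 + 1)
      refine ⟨s, ?_, fun i hi => ?_, ?_⟩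
      · rw [hs 0 (lt_of_le_of_lt (zero_le' _) (lt_succ_self' (v 0))), Mk_zero]
      · rw [hs i (hi.trans (lt_succ_self' _)), hs (i + 1) (lt_add_one_iff'.2
          (add_one_le_iff'.2 hi)), Mk_succ]
      · rw [hs (v 0) (lt_succ_self' _), h]

theorem A2_mem (x y : N.M) : A2 G x y ∈ G.D := hG.add_mem _ (rt_mem hG x) _ (rt_mem hG y)

theorem Mk_mem (k x : N.M) : Mk hG k x ∈ G.D := by
  rcases eq_zero_or_succ k with rfl | ⟨k', rfl⟩
  · rw [Mk_zero]; exact hG.zero_mem
  · rw [Mk_succ]; exact A2_mem hG _ _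

omit hG in
/-- the type of elements -/
def GT (G : Grp N) : Type u := {x : N.M // x ∈ G.D}

/-- the group structure -/
@[instance_reducible] noncomputable def grpI : AddCommGroup (GT G) :=
  letI : Zero (GT G) := ⟨⟨G.zero, hG.zero_mem⟩⟩
  letI : Add (GT G) := ⟨fun a b => ⟨G.add a.1 b.1, hG.add_mem _ a.2 _ b.2⟩⟩
  letI : Neg (GT G) := ⟨fun a => ⟨G.neg a.1, hG.neg_mem _ a.2⟩⟩
  { add_assoc := fun a b c => Subtype.ext (hG.assoc _ a.2 _ b.2 _ c.2)
    zero_add := fun a => Subtype.ext (hG.zero_add _ a.2)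
    add_zero := fun a => Subtype.ext ((hG.comm _ a.2 _ hG.zero_mem).trans (hG.zero_add _ a.2))
    nsmul := nsmulRec
    zsmul := zsmulRec
    neg_add_cancel := fun a => Subtype.ext (hG.neg_add _ a.2)
    add_comm := fun a b => Subtype.ext (hG.comm _ a.2 _ b.2) }

/-- the smul structure -/
noncomputable def sm (k : N.M) (a : GT G) : GT G := ⟨Mk hG k a.1, Mk_mem hG k a.1⟩

omit hG in
theorem GT_D {f g : N.M → GT G} (hf : AG (fun v : Ctx N => (f (v 0)).1))
    (hg : AG (fun v : Ctx N => (g (v 0)).1)) : D0 (fun v : Ctx N => f (v 0) = g (v 0)) :=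
  (D0.eqA hf hg).congr fun v => ⟨fun h => Subtype.ext h, fun h => by rw [h]⟩

theorem sm_zero (a : GT G) : letI := grpI hG; sm hG 0 a = 0 := Subtype.ext (Mk_zero hG a.1)

theorem sm_succ (k : N.M) (a : GT G) : letI := grpI hG; sm hG (k + 1) a = sm hG k a + a := by
  refine Subtype.ext ?_
  show Mk hG (k + 1) a.1 = G.add (Mk hG k a.1) a.1
  rw [Mk_succ]
  unfold A2
  rw [rt_of (Mk_mem hG k a.1), rt_of a.2]

theorem add_A {f g : Ctx N → GT G} (hf : AG (fun v : Ctx N => (f v).1))
    (hg : AG (fun v : Ctx N => (g v).1)) : letI := grpI hG; AG (fun v : Ctx N => (f v + g v).1) := by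
  have := A2_A hG hf hg
  unfold A2 at this
  simp only [rt_of (f _).2, rt_of (g _).2] at this
  exact this

/-- the module structure -/
@[instance_reducible] noncomputable def modI : letI := grpI hG; Module N.M (GT G) := by
  letI := grpI hG
  have smA : ∀ {k : Ctx N → N.M} {f : Ctx N → GT G}, AG k → AG (fun v : Ctx N => (f v).1) →
      AG (fun v : Ctx N => (sm hG (k v) (f v)).1) := fun hk hf => Mk_A hG hk hf
  have hind : ∀ (f g : N.M → GT G), AG (fun v : Ctx N => (f (v 0)).1) →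
      AG (fun v : Ctx N => (g (v 0)).1) → f 0 = g 0 → (∀ n, f n = g n → f (n + 1) = g (n + 1)) →
      ∀ n, f n = g n := fun f g hf hg h0 hs n => ind_D0 (P := fun n => f n = g n) (GT_D hf hg) h0 hs n
  have h0 : ∀ a : GT G, sm hG 0 a = 0 := sm_zero hG
  have h1 : ∀ (k : N.M) (a : GT G), sm hG (k + 1) a = sm hG k a + a := sm_succ hG
  have hadd : ∀ (a : GT G) (k l : N.M), sm hG (k + l) a = sm hG k a + sm hG l a := by
    intro a k
    refine hind (fun l => sm hG (k + l) a) (fun l => sm hG k a + sm hG l a) ?_ ?_ ?_ ?_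
    · exact smA (AG.add (AG.const k) (AG.var 0)) (AG.const a.1)
    · exact add_A hG (AG.const _) (smA (AG.var 0) (AG.const a.1))
    · show sm hG (k + 0) a = sm hG k a + sm hG 0 a
      rw [add_zero, h0, add_zero]
    · intro n hn
      show sm hG (k + (n + 1)) a = sm hG k a + sm hG (n + 1) a
      have hn' : sm hG (k + n) a = sm hG k a + sm hG n a := hn
      rw [← add_assoc, h1, h1, hn', add_assoc]
  exact
    { smul := fun k a => sm hG k a
      one_smul := fun a => by
        show sm hG 1 a = a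
        have e1 : (1 : N.M) = 0 + 1 := (zero_add 1).symm
        rw [e1, h1, h0, zero_add]
      mul_smul := fun k l a => by
        show sm hG (k * l) a = sm hG k (sm hG l a)
        refine hind (fun k => sm hG (k * l) a) (fun k => sm hG k (sm hG l a)) ?_ ?_ ?_ ?_ k
        · exact smA (AG.mul (AG.var 0) (AG.const l)) (AG.const a.1)
        · exact smA (AG.var 0) (AG.const (sm hG l a).1)
        · show sm hG (0 * l) a = sm hG 0 (sm hG l a)
          rw [zero_mul, h0, h0]
        · intro n hn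
          show sm hG ((n + 1) * l) a = sm hG (n + 1) (sm hG l a)
          have hn' : sm hG (n * l) a = sm hG n (sm hG l a) := hn
          rw [add_mul, one_mul, hadd, hn', h1]
      smul_zero := fun k => by
        show sm hG k 0 = 0
        refine hind (fun k => sm hG k 0) (fun k => 0) ?_ ?_ ?_ ?_ k
        · exact smA (AG.var 0) (AG.const (0 : GT G).1)
        · exact AG.const _
        · exact h0 0
        · intro n hn
          show sm hG (n + 1) 0 = 0
          have hn' : sm hG n 0 = 0 := hn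
          rw [h1, hn', add_zero]
      smul_add := fun k a b => by
        show sm hG k (a + b) = sm hG k a + sm hG k b
        refine hind (fun k => sm hG k (a + b)) (fun k => sm hG k a + sm hG k b) ?_ ?_ ?_ ?_ k
        · exact smA (AG.var 0) (AG.const (a + b).1)
        · exact add_A hG (smA (AG.var 0) (AG.const a.1)) (smA (AG.var 0) (AG.const b.1))
        · show sm hG 0 (a + b) = sm hG 0 a + sm hG 0 b
          rw [h0, h0, h0, add_zero]
        · intro n hn
          show sm hG (n + 1) (a + b) = sm hG (n + 1) a + sm hG (n + 1) b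
          have hn' : sm hG n (a + b) = sm hG n a + sm hG n b := hn
          rw [h1, h1, h1, hn']
          abel
      add_smul := fun k l a => hadd a k l
      zero_smul := fun a => h0 a }

/-- the coding -/
@[instance_reducible] noncomputable def codI : letI := grpI hG; letI := modI hG; Cod N (GT G) := by
  letI := grpI hG
  letI := modI hG
  exact
    { code := fun a => a.1
      dc := fun x => ⟨rt G x, rt_mem hG x⟩
      dc_code := fun a => Subtype.ext (rt_of a.2)
      cdD := D0.eqA (AG.var 1) (rt_A hG (AG.var 0))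
      addD := D0.eqA (AG.var 2) (A2_A hG (AG.var 0) (AG.var 1))
      negD := by
        refine D0.congr (D0.memA (AG.pr (rt_A hG (AG.var 0)) (AG.var 1)) hG.negIn) fun v => ?_
        constructor
        · rintro ⟨x, hx, he⟩
          obtain ⟨h1, h2⟩ := pr_inj he
          rw [h2, ← h1]; rfl
        · intro h
          exact ⟨_, rt_mem hG _, by rw [h]; rfl⟩
      smulD := D0.eqA (AG.var 2) (Mk_A hG (AG.var 0) (rt_A hG (AG.var 1))) }

end grp

/-- a coded group for `G` -/
structure Pack (G : Grp N) where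
  A : Type u
  grp : AddCommGroup A
  mod : Module N.M A
  cod : Cod N A
  cd_mem : ∀ a : A, cd N a ∈ G.D
  cd_surj : ∀ x ∈ G.D, ∃ a : A, cd N a = x
  cd_add : ∀ a b : A, cd N (a + b) = G.add (cd N a) (cd N b)

attribute [instance] Pack.grp Pack.mod Pack.cod

theorem exists_pack {G : Grp N} (hG : IsAbGrp N G) : Nonempty (Pack G) := by
  letI := grpI hG
  letI := modI hG
  letI := codI hG
  exact ⟨⟨GT G, inferInstance, inferInstance, inferInstance, fun a => a.2, fun x hx => ⟨⟨x, hx⟩, rfl⟩,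
    fun a b => rfl⟩⟩

theorem fst_pair (x y : N.M) : fst N (N.pair x y) = x := by
  unfold fst
  have h : ∃ x', ∃ y', N.pair x y = N.pair x' y' := ⟨x, y, rfl⟩
  rw [dif_pos h]
  obtain ⟨y', h'⟩ := h.choose_spec
  exact (pr_inj h').1.symm

theorem snd_pair (x y : N.M) : snd N (N.pair x y) = y := by
  unfold snd
  have h : ∃ y', ∃ x', N.pair x y = N.pair x' y' := ⟨y, x, rfl⟩
  rw [dif_pos h]
  obtain ⟨x', h'⟩ := h.choose_spec
  exact (pr_inj h').2.symm

/-- direct sums -/
noncomputable def Pack.prod {G H : Grp N} (P : Pack G) (Q : Pack H) : Pack (dsum N G H) where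
  A := P.A × Q.A
  grp := inferInstance
  mod := inferInstance
  cod := inferInstance
  cd_mem z := ⟨_, P.cd_mem z.1, _, Q.cd_mem z.2, rfl⟩
  cd_surj := by
    rintro x ⟨a, ha, b, hb, rfl⟩
    obtain ⟨a', rfl⟩ := P.cd_surj a ha
    obtain ⟨b', rfl⟩ := Q.cd_surj b hb
    exact ⟨(a', b'), rfl⟩
  cd_add z w := by
    show N.pair (cd N (z.1 + w.1)) (cd N (z.2 + w.2)) = N.pair
      (G.add (fst N (N.pair (cd N z.1) (cd N z.2))) (fst N (N.pair (cd N w.1) (cd N w.2))))
      (H.add (snd N (N.pair (cd N z.1) (cd N z.2))) (snd N (N.pair (cd N w.1) (cd N w.2))))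
    rw [fst_pair, fst_pair, snd_pair, snd_pair, P.cd_add, Q.cd_add]

/-- isomorphisms give definable isomorphisms -/
theorem iso_map {G H : Grp N} (P : Pack G) (Q : Pack H) (h : Isom N G H) :
    ∃ (φ : P.A → Q.A) (ψ : Q.A → P.A), DM N φ ∧ DM N ψ ∧ (∀ a b, φ (a + b) = φ a + φ b) ∧
      (∀ a b, ψ (a + b) = ψ a + ψ b) ∧ (∀ a, ψ (φ a) = a) ∧ ∀ b, φ (ψ b) = b := by
  obtain ⟨f, hf⟩ := h
  have hφ : ∀ a : P.A, ∃ b : Q.A, cd N b = f (cd N a) := fun a =>
    Q.cd_surj _ (hf.maps _ (P.cd_mem a))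
  choose φ hφ using hφ
  have hψ : ∀ b : Q.A, ∃ a : P.A, φ a = b := by
    intro b
    obtain ⟨x, hx, hxb⟩ := hf.surj _ (Q.cd_mem b)
    obtain ⟨a, rfl⟩ := P.cd_surj x hx
    exact ⟨a, cd_inj (N := N) (by rw [hφ, hxb])⟩
  choose ψ hψ using hψ
  have hinj : ∀ a b, φ a = φ b → a = b := fun a b hab => by
    refine cd_inj (N := N) (hf.inj _ (P.cd_mem a) _ (P.cd_mem b) ?_)
    rw [← hφ, ← hφ, hab]
  have hadd : ∀ a b, φ (a + b) = φ a + φ b := fun a b => by
    refine cd_inj (N := N) ?_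
    rw [hφ, Q.cd_add, hφ, hφ, P.cd_add]
    exact hf.hom _ (P.cd_mem a) _ (P.cd_mem b)
  have hφD : DM N φ := by
    refine D0.congr (D0.memA (AG.pr (AA.dc (α := P.A) (AG.var 1)).cd (AG.var 0)) hf.memIn)
      fun v => ?_
    show _ ↔ v 0 = cd N (φ (dc N P.A (v 1)))
    constructor
    · rintro ⟨x, hx, he⟩
      obtain ⟨h1, h2⟩ := pr_inj he
      rw [hφ, h2, ← h1]
    · intro h
      exact ⟨_, P.cd_mem _, by rw [h, hφ]; rfl⟩
  refine ⟨φ, ψ, hφD, ?_, hadd, fun a b => hinj _ _ ?_, fun a => hinj _ _ (hψ _), hψ⟩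
  · refine D0.congr (R := fun v : Ctx N => v 0 = cd N (dc N P.A (v 0)) ∧
      φ (dc N P.A (v 0)) = dc N Q.A (v 1)) (D0.and ?_ ?_) fun v => ?_
    · exact D0.eqA (AG.var 0) (AA.dc (AG.var 0)).cd
    · exact D0.aeq (hφD.app (AA.dc (AG.var 0))) (AA.dc (AG.var 1))
    · show _ ↔ v 0 = cd N (ψ (dc N Q.A (v 1)))
      constructor
      · rintro ⟨h1, h2⟩
        rw [h1, ← h2]
        congr 1
        exact hinj _ _ (hψ _).symm
      · intro h
        rw [h, dc_cd]
        exact ⟨rfl, hψ _⟩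
  · rw [hψ, hadd, hψ, hψ]

theorem pack_torsion {G : Grp N} (P : Pack G) (hG : IsAbGrp N G) (hT : IsTorsion N G) :
    ∀ a : P.A, ∃ k : N.M, k ≠ 0 ∧ k • a = 0 := by
  intro a
  obtain ⟨n, hn, s, hs, hs0, hs1, hs2⟩ := hT _ (P.cd_mem a)
  have hz : cd N (0 : P.A) = G.zero := by
    have h := P.cd_add 0 0
    rw [add_zero] at h
    have hx := P.cd_mem (0 : P.A)
    have hn := hG.neg_mem _ hx
    have h1 := hG.neg_add _ hx
    have h2 := hG.assoc _ hn _ hx _ hx
    rw [← h, h1, hG.zero_add _ hx] at h2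
    exact h2
  refine ⟨n, hn, cd_inj (N := N) ?_⟩
  have hsD : D0 (fun v : Ctx N => v 1 = s (v 0)) := D0.of_codeRel (R := fun x y => y = s x) hs
  have key : ∀ i, cd N (i • a) = s i := by
    intro i
    refine ind_D0 (P := fun i => cd N (i • a) = s i) ?_ ?_ ?_ i
    · exact D0.eqA (AA.smul (AG.var 0) (AA.const a)).cd (AG.op1 hsD (AG.var 0))
    · rw [zero_smul, hz]; exact hs0.symm
    · intro n hn
      rw [add_smul, one_smul, P.cd_add, hn]
      exact (hs1 n).symm
  rw [key, hz]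
  exact hs2

end Pool.Agent.W941.UL
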