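import Mathlib
import Pool.Agent.W941.UL.Ext
import Pool.Agent.Helper317.Atr.KB

/-! The tree of attempts and the main construction. -/

namespace Pool.Agent.W941.UL

open Pool.Agent.Helper617.RM Pool.Agent.Helper317.Atr

universe u

set_option linter.unusedSectionVars false
set_option linter.unusedVariables false

variable {N : L2Structure.{u}} [IsModelRCA0 N] [Sig1 N]
variable {α : Type u} [AddCommGroup α] [Module N.M α] [Cod N α]
variable {β : Type u} [AddCommGroup β] [Module N.M β] [Cod N β]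

/-- the relation coded by `c` -/
def KC (N : L2Structure.{u}) [IsModelRCA0 N] [Sig1 N] (α β : Type u) [AddCommGroup α]
    [Module N.M α] [Cod N α] [AddCommGroup β] [Module N.M β] [Cod N β] (c : N.M) (a : α)
    (b : β) : Prop := MemC (pr (cd N a) (cd N b)) c

theorem KC_D {c : Ctx N → N.M} {a : Ctx N → α} {b : Ctx N → β} (hc : AG c) (ha : AA a)
    (hb : AA b) : D0 (fun v => KC N α β (c v) (a v) (b v)) :=
  D0.MemCA (AG.pr ha.cd hb.cd) hc

theorem exists_KC {K : α → β → Prop} (hK : P2 (N := N) K) (hb : Bdd (N := N) K) :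
    ∃ c, ∀ a b, KC N α β c a b ↔ K a b := by
  obtain ⟨b, hb⟩ := hb
  obtain ⟨u, -, hu⟩ := exists_isC (P := fun r => ∃ a b, K a b ∧ r = pr (cd N a) (cd N b)) (by
      refine D0.aex (D0.aex (D0.and ?_ ?_))
      · exact hK.app (AA.dc (AG.var 1)) (AA.dc (AG.var 0))
      · exact D0.eqA (AG.var 2) (AG.pr (AA.dc (AG.var 1)).cd (AA.dc (AG.var 0)).cd))
    (b := pr b b) (by
      rintro r ⟨a, c, h, rfl⟩
      exact pr_lt_pr (add_lt_add (hb a c h).1 (hb a c h).2))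
  refine ⟨u, fun a c => ?_⟩
  show MemC _ u ↔ _
  rw [hu]
  constructor
  · rintro ⟨a', c', h, he⟩
    obtain ⟨h1, h2⟩ := pr_inj he
    rw [cd_inj h1, cd_inj h2]; exact h
  · intro h
    exact ⟨a, c, h, rfl⟩

theorem KC_P2 (c : N.M) : P2 (N := N) (KC N α β c) :=
  KC_D (AG.const c) (AA.dc (AG.var 0)) (AA.dc (AG.var 1))

theorem KC_Bdd (c : N.M) : Bdd (N := N) (KC N α β c) :=
  ⟨c, fun a b h => ⟨lt_of_le_of_lt (fst_le_pr _ _) h.lt, lt_of_le_of_lt (snd_le_pr _ _) h.lt⟩⟩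

theorem P2.swap {K : α → β → Prop} (hK : P2 (N := N) K) : P2 (N := N) (fun b a => K a b) :=
  hK.app (AA.dc (AG.var 1)) (AA.dc (AG.var 0))

theorem Bdd.swap {K : α → β → Prop} (hK : Bdd (N := N) K) : Bdd (N := N) (fun b a => K a b) := by
  obtain ⟨b, hb⟩ := hK
  exact ⟨b, fun a c h => ⟨(hb c a h).2, (hb c a h).1⟩⟩

theorem PI_iff {K : α → β → Prop} : PI N.M K ↔ K 0 0 ∧
    (∀ a b a' b', K a b → K a' b' → K (a + a') (b + b')) ∧ (∀ a b, K a b → K (-a) (-b)) ∧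
    (∀ (k : N.M) a b, K a b → K (k • a) (k • b)) ∧ (∀ b, K 0 b → b = 0) ∧
      (∀ a, K a 0 → a = 0) :=
  ⟨fun h => ⟨h.zero, fun _ _ _ _ => h.add, fun _ _ => h.neg, fun k _ _ => h.smul k,
    fun _ => h.inj1, fun _ => h.inj2⟩,
    fun ⟨h1, h2, h3, h4, h5, h6⟩ => ⟨h1, fun h h' => h2 _ _ _ _ h h', fun h => h3 _ _ h,
      fun k _ _ h => h4 k _ _ h, fun h => h5 _ h, fun h => h6 _ h⟩⟩

theorem PIc_D : D0 (fun v : Ctx N => PI N.M (KC N α β (v 0))) := by
  refine D0.congr ?_ fun v => PI_iff.symm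
  refine D0.and ?_ (D0.and (D0.aall (D0.aall (D0.aall (D0.aall (D0.imp ?_ (D0.imp ?_ ?_))))))
    (D0.and (D0.aall (D0.aall (D0.imp ?_ ?_))) (D0.and (D0.all (D0.aall (D0.aall
      (D0.imp ?_ ?_)))) (D0.and (D0.aall (D0.imp ?_ ?_)) (D0.aall (D0.imp ?_ ?_))))))
  · exact KC_D (AG.var 0) AA.zero AA.zero
  · exact KC_D (AG.var 4) (AA.dc (AG.var 3)) (AA.dc (AG.var 2))
  · exact KC_D (AG.var 4) (AA.dc (AG.var 1)) (AA.dc (AG.var 0))
  · exact KC_D (AG.var 4) ((AA.dc (AG.var 3)).add (AA.dc (AG.var 1)))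
      ((AA.dc (AG.var 2)).add (AA.dc (AG.var 0)))
  · exact KC_D (AG.var 2) (AA.dc (AG.var 1)) (AA.dc (AG.var 0))
  · exact KC_D (AG.var 2) (AA.dc (AG.var 1)).neg (AA.dc (AG.var 0)).neg
  · exact KC_D (AG.var 3) (AA.dc (AG.var 1)) (AA.dc (AG.var 0))
  · exact KC_D (AG.var 3) (AA.smul (AG.var 2) (AA.dc (AG.var 1)))
      (AA.smul (AG.var 2) (AA.dc (AG.var 0)))
  · exact KC_D (AG.var 1) AA.zero (AA.dc (AG.var 0))
  · exact D0.aeq (AA.dc (AG.var 0)) AA.zero
  · exact KC_D (AG.var 1) (AA.dc (AG.var 0)) AA.zero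
  · exact D0.aeq (AA.dc (AG.var 0)) AA.zero

variable (N α β) in
/-- the requirement at stage `i` -/
def Rq (i c c' : N.M) : Prop := ∀ j : N.M, i = j + j + 1 →
  (∀ g e : N.M, j = pr (pr g 0) e → (∃ p : N.M, ∃ b, Pm p ∧ KC N α β c (p • dc N α g) b) →
    ∃ b, KC N α β c' (dc N α g) b) ∧
  (∀ g e : N.M, j = pr (pr g 1) e → (∃ p : N.M, ∃ a, Pm p ∧ KC N α β c a (p • dc N β g)) →
    ∃ a, KC N α β c' a (dc N β g))

theorem Rq_D : D0 (fun v : Ctx N => Rq N α β (v 0) (v 1) (v 2)) := by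
  refine D0.all (D0.imp ?_ (D0.and (D0.all (D0.all (D0.imp ?_ (D0.imp (D0.ex (D0.aex
    (D0.and ?_ ?_))) (D0.aex ?_))))) (D0.all (D0.all (D0.imp ?_ (D0.imp (D0.ex (D0.aex
    (D0.and ?_ ?_))) (D0.aex ?_)))))))
  · exact D0.eq (Tm.var 1) (((Tm.var 0).add (Tm.var 0)).add Tm.one)
  · exact D0.eq (Tm.var 2) (((Tm.var 1).pr Tm.zero).pr (Tm.var 0))
  · exact Pm_D0 (AG.var 1)
  · exact KC_D (AG.var 6) (AA.smul (AG.var 1) (AA.dc (AG.var 3))) (AA.dc (AG.var 0))
  · exact KC_D (AG.var 6) (AA.dc (AG.var 2)) (AA.dc (AG.var 0))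
  · exact D0.eq (Tm.var 2) (((Tm.var 1).pr Tm.one).pr (Tm.var 0))
  · exact Pm_D0 (AG.var 1)
  · exact KC_D (AG.var 6) (AA.dc (AG.var 0)) (AA.smul (AG.var 1) (AA.dc (AG.var 3)))
  · exact KC_D (AG.var 6) (AA.dc (AG.var 0)) (AA.dc (AG.var 2))

variable (N α β) in
/-- the nodes of the tree of attempts -/
def Nd (s : N.M) : Prop :=
  Sq s ∧ (∀ c, En s 0 c → PI N.M (KC N α β c)) ∧
    ∀ i c c', En s i c → En s (i + 1) c' →
      PI N.M (KC N α β c') ∧ (∀ a b, KC N α β c a b → KC N α β c' a b) ∧ Rq N α β i c c'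

theorem Nd_D : D0 (fun v : Ctx N => Nd N α β (v 0)) := by
  have h1 : ∀ {t : Ctx N → N.M}, Tm t → D0 (fun v => PI N.M (KC N α β (t v))) := fun ht =>
    PIc_D.pred (R := fun x => PI N.M (KC N α β x)) ht
  refine D0.and (Sq_D0 (Tm.var 0)) (D0.and (D0.all (D0.imp ?_ ?_)) (D0.all (D0.all (D0.all
    (D0.imp ?_ (D0.imp ?_ (D0.and ?_ (D0.and (D0.aall (D0.aall (D0.imp ?_ ?_))) ?_))))))))
  · exact En_D0 (Tm.var 1) Tm.zero (Tm.var 0)
  · exact h1 (Tm.var 0)
  · exact En_D0 (Tm.var 3) (Tm.var 2) (Tm.var 1)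
  · exact En_D0 (Tm.var 3) ((Tm.var 2).add Tm.one) (Tm.var 0)
  · exact h1 (Tm.var 0)
  · exact KC_D (AG.var 3) (AA.dc (AG.var 1)) (AA.dc (AG.var 0))
  · exact KC_D (AG.var 2) (AA.dc (AG.var 1)) (AA.dc (AG.var 0))
  · exact Rq_D.rel3 (R := fun a b c => Rq N α β a b c) (Tm.var 2) (Tm.var 1) (Tm.var 0)

theorem Nd_closed {s t : N.M} (hs : Nd N α β s) (ht : Ini t s) : Nd N α β t :=
  ⟨ht.1, fun c h => hs.2.1 c (ht.mem h), fun i c c' h h' => hs.2.2 i c c' (ht.mem h) (ht.mem h')⟩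

theorem Nd.PI {s i c : N.M} (hs : Nd N α β s) (h : En s i c) : UL.PI N.M (KC N α β c) := by
  rcases eq_zero_or_succ i with rfl | ⟨i', rfl⟩
  · exact hs.2.1 c h
  · obtain ⟨n, -, hn⟩ := hs.1
    obtain ⟨c', hc'⟩ := hn.ex ((lt_succ_self' i').trans (hn.lt h))
    exact (hs.2.2 i' c' c hc' h).1

theorem Nd_app {s t n c c' : N.M} (hs : Nd N α β s) (hsn : IsSq s (n + 1)) (hc : En s n c)
    (ht : IsSq t (n + 1 + 1)) (hst : Ini s t) (hc' : En t (n + 1) c')
    (h1 : PI N.M (KC N α β c')) (h2 : ∀ a b, KC N α β c a b → KC N α β c' a b)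
    (h3 : Rq N α β n c c') : Nd N α β t := by
  have hback : ∀ i x, i < n + 1 → En t i x → En s i x := by
    intro i x hi hx
    obtain ⟨x', hx'⟩ := hsn.ex hi
    have : x = x' := ht.fn hx (hst.mem hx')
    rw [this]; exact hx'
  refine ⟨ht.sq, fun x hx => hs.2.1 x (hback 0 x (lt_of_le_of_lt (zero_le' n)
    (lt_succ_self' n)) hx), fun i x x' hx hx' => ?_⟩
  have hi : i + 1 < n + 1 + 1 := ht.lt hx'
  rcases lt_or_eq_of_le (lt_add_one_iff'.1 hi) with h | h
  · exact hs.2.2 i x x' (hback i x ((lt_succ_self' i).trans h) hx) (hback (i + 1) x' h hx')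
  · obtain rfl := add_one_inj' h
    have e1 : x' = c' := ht.fn hx' hc'
    have e2 : x = c := hsn.fn (hback i x (lt_succ_self' i) hx) hc
    subst e1; subst e2
    exact ⟨h1, h2, h3⟩

/-- a path gives an isomorphism -/
theorem iso_of_path (htA : ∀ a : α, ∃ k : N.M, k ≠ 0 ∧ k • a = 0)
    (htB : ∀ a : β, ∃ k : N.M, k ≠ 0 ∧ k • a = 0) {f : N.M → N.M}
    (hf : D0 (fun v => v 1 = f (v 0)))
    (hp : ∀ n, Nd N α β (f n) ∧ IsSq (f n) n ∧ Ini (f n) (f (n + 1))) :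
    ∃ F : α → β → Prop, P2 (N := N) F ∧ PI N.M F ∧ (∀ a, ∃ b, F a b) ∧ ∀ b, ∃ a, F a b := by
  have hex : ∀ i, ∃ c, En (f (i + 1)) i c := fun i => (hp (i + 1)).2.1.ex (lt_succ_self' i)
  choose C hC using hex
  have hCD : AG (fun v : Ctx N => C (v 0)) := by
    refine D0.congr (R := fun v => En (f (v 1 + 1)) (v 1) (v 0)) ?_ fun v => ?_
    · exact D0.app3 (R := fun a b c => En a b c) (En_D0 (Tm.var 0) (Tm.var 1) (Tm.var 2))
        (AG.op1 hf (AG.add (AG.var 1) (AG.const 1))) (AG.var 1) (AG.var 0)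
    · show _ ↔ v 0 = C (v 1)
      constructor
      · intro h; exact (hp (v 1 + 1)).2.1.fn h (hC (v 1))
      · intro h; rw [h]; exact hC _
  have hCA : ∀ {g : Ctx N → N.M}, AG g → AG (fun v => C (g v)) := fun hg =>
    AG.op1 (AG.gf hCD) hg
  have hstep : ∀ i, (∀ a b, KC N α β (C i) a b → KC N α β (C (i + 1)) a b) ∧
      Rq N α β i (C i) (C (i + 1)) := by
    intro i
    have h1 := (hp (i + 1 + 1)).1.2.2 i (C i) (C (i + 1)) ((hp (i + 1)).2.2.mem (hC i))
      (hC (i + 1))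
    exact h1.2
  have hPI : ∀ i, PI N.M (KC N α β (C i)) := fun i => (hp (i + 1)).1.PI (hC i)
  have hmono' : ∀ i d a b, KC N α β (C i) a b → KC N α β (C (i + d)) a b := by
    intro i d a b h
    refine ind_D0 (P := fun d => KC N α β (C (i + d)) a b) ?_ (by rwa [add_zero])
      (fun d hd => ?_) d
    · exact KC_D (hCA (AG.add (AG.const i) (AG.var 0))) (AA.const a) (AA.const b)
    · rw [← add_assoc]; exact (hstep _).1 a b hd
  have hmono : ∀ i j, i ≤ j → ∀ a b, KC N α β (C i) a b → KC N α β (C j) a b := by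
    intro i j hij a b h
    obtain ⟨d, rfl⟩ := exists_sub hij
    exact hmono' i d a b h
  have hFD : P2 (N := N) (fun (a : α) (b : β) => ∃ i, KC N α β (C i) a b) := by
    refine D0.ex ?_
    exact KC_D (hCA (AG.var 0)) (AA.dc (AG.var 1)) (AA.dc (AG.var 2))
  refine ⟨fun a b => ∃ i, KC N α β (C i) a b, hFD, ?_, ?_, ?_⟩
  · refine ⟨⟨0, (hPI 0).zero⟩, ?_, ?_, ?_, ?_, ?_⟩
    · rintro a b a' b' ⟨i, h⟩ ⟨i', h'⟩
      exact ⟨max i i', (hPI _).add (hmono _ _ (le_max_left _ _) _ _ h)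
        (hmono _ _ (le_max_right _ _) _ _ h')⟩
    · rintro a b ⟨i, h⟩; exact ⟨i, (hPI _).neg h⟩
    · rintro k a b ⟨i, h⟩; exact ⟨i, (hPI _).smul k h⟩
    · rintro b ⟨i, h⟩; exact (hPI _).inj1 h
    · rintro b ⟨i, h⟩; exact (hPI _).inj2 h
  · intro a
    obtain ⟨k, hk0, hk⟩ := htA a
    obtain ⟨m, ⟨hm0, b, i, hmb⟩, hmin⟩ := lnp (P := fun m => ¬ m = 0 ∧
      ∃ b, ∃ i, KC N α β (C i) (m • a) b) (by
        refine D0.and (D0.eq (Tm.var 0) Tm.zero).not (D0.aex (D0.ex ?_))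
        exact KC_D (hCA (AG.var 0)) (AA.smul (AG.var 2) (AA.const a)) (AA.dc (AG.var 1)))
      (a := k) ⟨hk0, 0, 0, by rw [hk]; exact (hPI 0).zero⟩
    rcases lt_or_eq_of_le (one_le_of_pos (Helper617.RM.pos_of_ne_zero hm0)) with h | h
    · exfalso
      obtain ⟨p, m', hpm, rfl⟩ := exists_factor h
      have hm'0 : m' ≠ 0 := by
        rintro rfl
        exact hm0 (mul_zero p)
      have hlt : m' < p * m' := by
        obtain ⟨p', hp'⟩ := hpm.pos
        have h0 : 0 < p' := by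
          refine Helper617.RM.pos_of_ne_zero ?_
          rintro rfl
          have := hpm.1
          rw [hp', zero_add] at this
          exact lt_irrefl _ this
        rw [hp', add_mul, one_mul]
        exact lt_add_of_pos_left _ (mul_pos h0 (Helper617.RM.pos_of_ne_zero hm'0))
      set g := cd N (m' • a) with hg
      set j := pr (pr g 0) i with hj
      have hij : i ≤ j + j + 1 := by
        calc i ≤ j := snd_le_pr _ _
          _ ≤ j + j := le_add_of_nonneg_left (zero_le' _)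
          _ ≤ j + j + 1 := (lt_succ_self' _).le
      have hr := ((hstep (j + j + 1)).2 j rfl).1 g i rfl ⟨p, b, hpm, by
        rw [hg, dc_cd, ← mul_smul]
        exact hmono _ _ hij _ _ hmb⟩
      obtain ⟨b', hb'⟩ := hr
      rw [hg, dc_cd] at hb'
      exact hmin m' hlt ⟨hm'0, b', _, hb'⟩
    · rw [← h, one_smul] at hmb
      exact ⟨b, i, hmb⟩
  · intro a
    obtain ⟨k, hk0, hk⟩ := htB a
    obtain ⟨m, ⟨hm0, b, i, hmb⟩, hmin⟩ := lnp (P := fun m => ¬ m = 0 ∧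
      ∃ b, ∃ i, KC N α β (C i) b (m • a)) (by
        refine D0.and (D0.eq (Tm.var 0) Tm.zero).not (D0.aex (D0.ex ?_))
        exact KC_D (hCA (AG.var 0)) (AA.dc (AG.var 1)) (AA.smul (AG.var 2) (AA.const a)))
      (a := k) ⟨hk0, 0, 0, by rw [hk]; exact (hPI 0).zero⟩
    rcases lt_or_eq_of_le (one_le_of_pos (Helper617.RM.pos_of_ne_zero hm0)) with h | h
    · exfalso
      obtain ⟨p, m', hpm, rfl⟩ := exists_factor h
      have hm'0 : m' ≠ 0 := by
        rintro rfl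
        exact hm0 (mul_zero p)
      have hlt : m' < p * m' := by
        obtain ⟨p', hp'⟩ := hpm.pos
        have h0 : 0 < p' := by
          refine Helper617.RM.pos_of_ne_zero ?_
          rintro rfl
          have := hpm.1
          rw [hp', zero_add] at this
          exact lt_irrefl _ this
        rw [hp', add_mul, one_mul]
        exact lt_add_of_pos_left _ (mul_pos h0 (Helper617.RM.pos_of_ne_zero hm'0))
      set g := cd N (m' • a) with hg
      set j := pr (pr g 1) i with hj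
      have hij : i ≤ j + j + 1 := by
        calc i ≤ j := snd_le_pr _ _
          _ ≤ j + j := le_add_of_nonneg_left (zero_le' _)
          _ ≤ j + j + 1 := (lt_succ_self' _).le
      have hr := ((hstep (j + j + 1)).2 j rfl).2 g i rfl ⟨p, b, hpm, by
        rw [hg, dc_cd, ← mul_smul]
        exact hmono _ _ hij _ _ hmb⟩
      obtain ⟨b', hb'⟩ := hr
      rw [hg, dc_cd] at hb'
      exact hmin m' hlt ⟨hm'0, b', _, hb'⟩
    · rw [← h, one_smul] at hmb
      exact ⟨b, i, hmb⟩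

theorem par (j j' : N.M) : j + j ≠ j' + j' + 1 := by
  intro h
  rcases lt_or_ge j' j with h1 | h1
  · have h2 : j' + 1 ≤ j := add_one_le_iff'.2 h1
    have h3 : j' + 1 + (j' + 1) ≤ j + j := add_le_add h2 h2
    rw [h] at h3
    have e1 : j' + 1 + (j' + 1) = j' + j' + 1 + 1 := by ring
    rw [e1] at h3
    exact absurd (lt_succ_self' _) (not_lt_of_ge h3)
  · have h3 : j + j ≤ j' + j' := add_le_add h1 h1
    rw [h] at h3
    exact absurd (lt_succ_self' _) (not_lt_of_ge h3)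

theorem core {e : N.M → N.M → N.M} (he : Entf N e) (hAT : ArithTransRec N)
    (htA : ∀ a : α, ∃ k : N.M, k ≠ 0 ∧ k • a = 0)
    (htB : ∀ a : β, ∃ k : N.M, k ≠ 0 ∧ k • a = 0)
    (hC : ∀ (T : Set N.M) (R : N.M → N.M → Prop), IsWellOrd N T R →
      ∀ (LA : N.M → N.M → α → Prop) (LB : N.M → N.M → β → Prop), Lev T R LA → Lev T R LB →
        Cmp e T R LA LB ∧ Cmp e T R LB LA) :
    ∃ F : α → β → Prop, P2 (N := N) F ∧ PI N.M F ∧ (∀ a, ∃ b, F a b) ∧ ∀ b, ∃ a, F a b := by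
  by_contra hcon
  set T : Set N.M := {s | Nd N α β s} with hTdef
  have hT : T ∈ N.Sets := comp_D0 Nd_D
  have hsq : ∀ s ∈ T, Sq s := fun s hs => hs.1
  have hcl : ∀ s ∈ T, ∀ t, Ini t s → t ∈ T := fun s hs t ht => Nd_closed hs ht
  have hnp : NoPath T := fun ⟨f, hf, hp⟩ => hcon (iso_of_path htA htB hf hp)
  have hW := kb_wo hT hsq hcl hnp
  obtain ⟨LA, hLA⟩ := exists_lev (α := α) hAT hW
  obtain ⟨LB, hLB⟩ := exists_lev (α := β) hAT hW
  obtain ⟨hC1, hC2⟩ := hC T _ hW LA LB hLA hLB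
  set S : N.M → Prop := fun s => ∃ j, IsSq s (j + j + 1) ∧ ∃ c, En s (j + j) c ∧
    GoodK (KbLe T) LA LB (KC N α β c) s with hSdef
  have hSD : D0 (fun v => S (v 0)) := by
    refine D0.ex (D0.and ?_ (D0.ex (D0.and ?_ (D0.all (D0.all (D0.imp ?_ (D0.imp ?_
      (D0.aall (D0.aall (D0.imp ?_ (D0.iff ?_ ?_)))))))))))
    · exact IsSq_D0 (Tm.var 1) (((Tm.var 0).add (Tm.var 0)).add Tm.one)
    · exact En_D0 (Tm.var 2) ((Tm.var 1).add (Tm.var 1)) (Tm.var 0)
    · exact Pm_D0 (AG.var 1)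
    · exact (KbLe_D0 hT).rel (Tm.var 0) (Tm.var 4)
    · exact KC_D (AG.var 4) (AA.dc (AG.var 1)) (AA.dc (AG.var 0))
    · exact hLA.D (AG.var 3) (AG.var 2) (AA.dc (AG.var 1))
    · exact hLB.D (AG.var 3) (AG.var 2) (AA.dc (AG.var 0))
  -- the starting node
  obtain ⟨c0, hc0⟩ := exists_KC (N := N) (α := α) (β := β) (K := fun a b => a = 0 ∧ b = 0)
    (D0.and (D0.aeq (AA.dc (AG.var 0)) AA.zero) (D0.aeq (AA.dc (AG.var 1)) AA.zero))
    ⟨max (cd N (0 : α)) (cd N (0 : β)) + 1, fun a b ⟨h1, h2⟩ => by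
      rw [h1, h2]
      exact ⟨lt_add_one_iff'.2 (le_max_left _ _), lt_add_one_iff'.2 (le_max_right _ _)⟩⟩
  have hPI0 : PI N.M (KC N α β c0) := by
    refine ⟨(hc0 _ _).2 ⟨rfl, rfl⟩, ?_, ?_, ?_, ?_, ?_⟩
    · intro a b a' b' h h'
      rw [hc0] at h h' ⊢
      rw [h.1, h.2, h'.1, h'.2]; simp
    · intro a b h
      rw [hc0] at h ⊢
      rw [h.1, h.2]; simp
    · intro k a b h
      rw [hc0] at h ⊢
      rw [h.1, h.2]; simp
    · intro b h; exact ((hc0 _ _).1 h).2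
    · intro b h; exact ((hc0 _ _).1 h).1
  obtain ⟨s00, hs00⟩ := exists_empty (N := N)
  obtain ⟨s0, hs01, hs02, hs03⟩ := exists_app hs00 c0
  have hs0T : s0 ∈ T := by
    refine ⟨hs01.sq, fun c hc => ?_, fun i c c' h h' => ?_⟩
    · rw [hs01.fn hc hs03]; exact hPI0
    · exfalso
      have h1 := hs01.lt h'
      have h2 : i < 0 := by
        rcases lt_or_eq_of_le (lt_add_one_iff'.1 h1) with h3 | h3
        · exact absurd h3 (not_lt_of_ge (zero_le' _))
        · exact absurd h3 (succ_ne_zero' i)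
      exact absurd h2 (not_lt_of_ge (zero_le' _))
  have hs0S : S s0 := by
    refine ⟨0, by rw [add_zero]; exact hs01, c0, by rw [add_zero]; exact hs03, ?_⟩
    intro p y hp hy a b hab
    obtain ⟨rfl, rfl⟩ := (hc0 _ _).1 hab
    have hyT := (hW.dom _ _ hy).1
    exact ⟨fun _ => (hLB.sg hW p y hyT).zero, fun _ => (hLA.sg hW p y hyT).zero⟩
  obtain ⟨σ, hσT, ⟨j, hσ1, c, hσ2, hσ3⟩, hmin⟩ := wo_least hW (Z := S) hSD hs0T hs0S
  have hNσ : Nd N α β σ := hσT
  have hPIc := hNσ.PI hσ2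
  -- the dummy child
  obtain ⟨σ1, hσ11, hσ12, hσ13⟩ := exists_app hσ1 c
  have hNσ1 : Nd N α β σ1 := Nd_app hNσ hσ1 hσ2 hσ11 hσ12 hσ13 hPIc (fun _ _ h => h)
    (fun j' hj' => absurd hj' (par j j'))
  have hR1 : KbLe T σ1 σ := ⟨hNσ1, hσT, Or.inr (Kb_child hσ1 hσ11 hσ12)⟩
  have hne1 : σ1 ≠ σ := by
    rintro h
    rw [h] at hσ11
    have := hσ1.len_unique hσ11
    exact absurd (lt_succ_self' (j + j + 1)) (by rw [← this]; exact lt_irrefl _)
  -- the extension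
  have hext : ∃ c', PI N.M (KC N α β c') ∧ (∀ a b, KC N α β c a b → KC N α β c' a b) ∧
      GoodK (KbLe T) LA LB (KC N α β c') σ1 ∧ Rq N α β (j + j + 1) c c' := by
    by_cases hA1 : ∃ g e' : N.M, j = pr (pr g 0) e' ∧ ∃ p : N.M, ∃ b, Pm p ∧ KC N α β c (p • dc N α g) b
    · obtain ⟨g, e', hj, p, b, hp, hKb⟩ := hA1
      obtain ⟨K', h1, h2, h3, h4, h5, h6⟩ := ext_step hW hLA hLB he hC1 hPIc (KC_P2 c)
        (KC_Bdd c) hR1 hne1 hσ3 hp ⟨b, hKb⟩
      obtain ⟨c', hc'⟩ := exists_KC h2 h3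
      have hcK : KC N α β c' = K' := by
        funext a b; exact propext (hc' a b)
      refine ⟨c', by rw [hcK]; exact h1, fun a b h => by rw [hcK]; exact h4 a b h,
        by rw [hcK]; exact h5, fun j' hj' => ⟨fun g' e'' h7 _ => ?_, fun g' e'' h7 _ => ?_⟩⟩
      · have hjj : j = j' := by
          by_contra hne
          rcases lt_or_gt_of_ne hne with h | h
          · exact absurd hj' (add_lt_add_of_lt_of_le (add_lt_add h h) le_rfl).ne
          · exact absurd hj' (add_lt_add_of_lt_of_le (add_lt_add h h) le_rfl).ne'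
        rw [← hjj, hj] at h7
        obtain ⟨h8, -⟩ := pr_inj h7
        obtain ⟨rfl, -⟩ := pr_inj h8
        rw [hcK]; exact h6
      · have hjj : j = j' := by
          by_contra hne
          rcases lt_or_gt_of_ne hne with h | h
          · exact absurd hj' (add_lt_add_of_lt_of_le (add_lt_add h h) le_rfl).ne
          · exact absurd hj' (add_lt_add_of_lt_of_le (add_lt_add h h) le_rfl).ne'
        rw [← hjj, hj] at h7
        obtain ⟨h8, -⟩ := pr_inj h7
        obtain ⟨-, h9⟩ := pr_inj h8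
        exact absurd h9 zero_ne_one
    · by_cases hB1 : ∃ g e' : N.M, j = pr (pr g 1) e' ∧ ∃ p : N.M, ∃ a, Pm p ∧ KC N α β c a (p • dc N β g)
      · obtain ⟨g, e', hj, p, b, hp, hKb⟩ := hB1
        obtain ⟨K', h1, h2, h3, h4, h5, h6⟩ := ext_step hW hLB hLA he hC2 hPIc.symm
          (KC_P2 c).swap (KC_Bdd c).swap hR1 hne1
          (fun p y hp hy a b hab => (hσ3 p y hp hy b a hab).symm) hp ⟨b, hKb⟩
        obtain ⟨c', hc'⟩ := exists_KC h2.swap h3.swap
        have hcK : KC N α β c' = fun a b => K' b a := by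
          funext a b; exact propext (hc' a b)
        refine ⟨c', by rw [hcK]; exact h1.symm, fun a b h => by rw [hcK]; exact h4 b a h,
          by rw [hcK]; exact fun p y hp hy a b hab => (h5 p y hp hy b a hab).symm,
          fun j' hj' => ⟨fun g' e'' h7 _ => ?_, fun g' e'' h7 _ => ?_⟩⟩
        · have hjj : j = j' := by
            by_contra hne
            rcases lt_or_gt_of_ne hne with h | h
            · exact absurd hj' (add_lt_add_of_lt_of_le (add_lt_add h h) le_rfl).ne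
            · exact absurd hj' (add_lt_add_of_lt_of_le (add_lt_add h h) le_rfl).ne'
          rw [← hjj, hj] at h7
          obtain ⟨h8, -⟩ := pr_inj h7
          obtain ⟨-, h9⟩ := pr_inj h8
          exact absurd h9 one_ne_zero
        · have hjj : j = j' := by
            by_contra hne
            rcases lt_or_gt_of_ne hne with h | h
            · exact absurd hj' (add_lt_add_of_lt_of_le (add_lt_add h h) le_rfl).ne
            · exact absurd hj' (add_lt_add_of_lt_of_le (add_lt_add h h) le_rfl).ne'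
          rw [← hjj, hj] at h7
          obtain ⟨h8, -⟩ := pr_inj h7
          obtain ⟨rfl, -⟩ := pr_inj h8
          rw [hcK]; exact h6
      · refine ⟨c, hPIc, fun _ _ h => h, fun p y hp hy => hσ3 p y hp (hW.trans _ _ _ hy hR1),
          fun j' hj' => ?_⟩
        have hjj : j = j' := by
          by_contra hne
          rcases lt_or_gt_of_ne hne with h | h
          · exact absurd hj' (add_lt_add_of_lt_of_le (add_lt_add h h) le_rfl).ne
          · exact absurd hj' (add_lt_add_of_lt_of_le (add_lt_add h h) le_rfl).ne'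
        subst hjj
        exact ⟨fun g' e'' h7 h8 => absurd ⟨g', e'', h7, h8⟩ hA1,
          fun g' e'' h7 h8 => absurd ⟨g', e'', h7, h8⟩ hB1⟩
  obtain ⟨c', h1, h2, h3, h4⟩ := hext
  obtain ⟨σ2, hσ21, hσ22, hσ23⟩ := exists_app hσ11 c'
  have hNσ2 : Nd N α β σ2 := Nd_app hNσ1 hσ11 hσ13 hσ21 hσ22 hσ23 h1 h2 h4
  have hR2 : KbLe T σ2 σ1 := ⟨hNσ2, hNσ1, Or.inr (Kb_child hσ11 hσ21 hσ22)⟩
  have hS2 : S σ2 := by
    refine ⟨j + 1, ?_, c', ?_, ?_⟩
    · have e1 : j + 1 + (j + 1) + 1 = j + j + 1 + 1 + 1 := by ring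
      rw [e1]; exact hσ21
    · have e1 : j + 1 + (j + 1) = j + j + 1 + 1 := by ring
      rw [e1]; exact hσ23
    · exact fun p y hp hy => h3 p y hp (hW.trans _ _ _ hy hR2)
  have h5 := hmin σ2 hNσ2 hS2
  exact hne1 (hW.antisymm _ _ hR1 (hW.trans _ _ _ h5 hR2))

end Pool.Agent.W941.UL
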