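import Mathlib
import Pool.Agent.W941.UL.Pack
import Pool.Agent.W941.UL.Tree

/-! `ATR₀` proves the statements (a) and (b). -/

namespace Pool.Agent.W941.UL

open Pool.Agent.Helper617.RM Pool.Agent.Helper317.Atr

universe u

set_option linter.unusedSectionVars false
set_option linter.unusedVariables false

variable {N : L2Structure.{u}} [IsModelRCA0 N] [Sig1 N]

theorem isom_of_cmp {e : N.M → N.M → N.M} (he : Entf N e) (hAT : ArithTransRec N) {G H : Grp N}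
    (hG : IsAbGrp N G) (tG : IsTorsion N G) (hH : IsAbGrp N H) (tH : IsTorsion N H)
    (P : Pack G) (Q : Pack H)
    (hC : ∀ (T : Set N.M) (R : N.M → N.M → Prop), IsWellOrd N T R →
      ∀ (LA : N.M → N.M → P.A → Prop) (LB : N.M → N.M → Q.A → Prop), Lev T R LA → Lev T R LB →
        Cmp e T R LA LB ∧ Cmp e T R LB LA) : Isom N G H := by
  obtain ⟨F, hFD, hF, hF1, hF2⟩ := core he hAT (pack_torsion P hG tG) (pack_torsion Q hH tH) hC
  choose φ hφ using hF1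
  have hφD : DM N φ := by
    refine D0.congr (R := fun v : Ctx N => v 0 = cd N (dc N Q.A (v 0)) ∧
      F (dc N P.A (v 1)) (dc N Q.A (v 0))) (D0.and ?_ ?_) fun v => ?_
    · exact D0.eqA (AG.var 0) (AA.dc (AG.var 0)).cd
    · exact hFD.app (AA.dc (AG.var 1)) (AA.dc (AG.var 0))
    · show _ ↔ v 0 = cd N (φ (dc N P.A (v 1)))
      constructor
      · rintro ⟨h1, h2⟩
        rw [h1]
        congr 1
        exact hF.fun1 h2 (hφ _)
      · intro h
        rw [h, dc_cd]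
        exact ⟨rfl, hφ _⟩
  have hdc : ∀ x ∈ G.D, cd N (dc N P.A x) = x := by
    intro x hx
    obtain ⟨a, rfl⟩ := P.cd_surj x hx
    rw [dc_cd]
  refine ⟨fun x => cd N (φ (dc N P.A x)), ?_, fun x _ => Q.cd_mem _, ?_, ?_, ?_⟩
  · refine comp_D0 (P := fun r => ∃ x, x ∈ G.D ∧ r = pr x (cd N (φ (dc N P.A x)))) ?_
    exact D0.ex (D0.and (D0.mem (Tm.var 0) hG.memIn) (D0.eqA (AG.var 1)
      (AG.pr (AG.var 0) (hφD.app (AA.dc (AG.var 0))).cd)))
  · intro x hx y hy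
    obtain ⟨a, rfl⟩ := P.cd_surj x hx
    obtain ⟨b, rfl⟩ := P.cd_surj y hy
    show cd N (φ (dc N P.A (G.add (cd N a) (cd N b)))) = H.add (cd N (φ (dc N P.A (cd N a))))
      (cd N (φ (dc N P.A (cd N b))))
    rw [← P.cd_add, dc_cd, dc_cd, dc_cd, ← Q.cd_add]
    congr 1
    exact hF.fun1 (hφ _) (hF.add (hφ a) (hφ b))
  · intro x hx y hy hxy
    have h1 : φ (dc N P.A x) = φ (dc N P.A y) := cd_inj hxy
    have h2 : dc N P.A x = dc N P.A y := hF.fun2 (hφ _) (by rw [h1]; exact hφ _)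
    rw [← hdc x hx, h2, hdc y hy]
  · intro z hz
    obtain ⟨b, rfl⟩ := Q.cd_surj z hz
    obtain ⟨a, ha⟩ := hF2 b
    refine ⟨cd N a, P.cd_mem a, ?_⟩
    show cd N (φ (dc N P.A (cd N a))) = cd N b
    rw [dc_cd]
    congr 1
    exact hF.fun1 (hφ a) ha

theorem stmtA (hAT : ArithTransRec N) : StmtA N := by
  intro G H hG tG hH tH hiso
  obtain ⟨e, he⟩ := exists_entf N
  obtain ⟨P⟩ := exists_pack hG
  obtain ⟨Q⟩ := exists_pack hH
  obtain ⟨Φ, Ψ, hΦ, hΨ, Φadd, Ψadd, h1, h2⟩ := iso_map (P.prod P) (Q.prod Q) hiso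
  exact isom_of_cmp he hAT hG tG hH tH P Q fun T R hW LA LB hA hB =>
    ⟨cmp_square he hW hA hB (Φ := Φ) (Ψ := Ψ) hΦ hΨ Φadd Ψadd h1,
      cmp_square he hW hB hA (Φ := Ψ) (Ψ := Φ) hΨ hΦ Ψadd Φadd h2⟩

/-- a summand is a retract -/
theorem retract_of {G H : Grp N} (P : Pack G) (Q : Pack H) (h : IsSummand N G H) :
    ∃ (i : P.A → Q.A) (r : Q.A → P.A), DM N i ∧ DM N r ∧ (∀ a b, i (a + b) = i a + i b) ∧
      (∀ a b, r (a + b) = r a + r b) ∧ ∀ a, r (i a) = a := by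
  obtain ⟨K, hK, hiso⟩ := h
  obtain ⟨R⟩ := exists_pack hK
  obtain ⟨θ, θ', hθ, hθ', θadd, θadd', h1, h2⟩ := iso_map Q (P.prod R) hiso
  have hθ1 : DM N (α := Q.A) (β := P.A × R.A) θ := hθ
  have hθ1' : DM N (α := P.A × R.A) (β := Q.A) θ' := hθ'
  refine ⟨fun a => θ' ((a, 0) : P.A × R.A), fun b => (θ b : P.A × R.A).1, ?_, ?_, ?_, ?_, ?_⟩
  · exact hθ1'.app ((AA.dc (AG.var 0)).prod AA.zero)
  · exact (hθ1.app (AA.dc (AG.var 0))).fst
  · intro a b
    have e : ((a + b, 0) : P.A × R.A) = (a, 0) + (b, 0) := Prod.ext rfl (add_zero _).symm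
    exact (congrArg θ' e).trans (θadd' ((a, 0) : P.A × R.A) ((b, 0) : P.A × R.A))
  · intro a b
    exact congrArg Prod.fst (θadd a b)
  · intro a
    exact congrArg Prod.fst (h2 ((a, 0) : P.A × R.A))

theorem stmtB (hAT : ArithTransRec N) : StmtB N := by
  intro G H hG tG hH tH hGH hHG
  obtain ⟨e, he⟩ := exists_entf N
  obtain ⟨P⟩ := exists_pack hG
  obtain ⟨Q⟩ := exists_pack hH
  obtain ⟨i, r, hi, hr, iadd, radd, hri⟩ := retract_of P Q hGH
  obtain ⟨i', r', hi', hr', iadd', radd', hri'⟩ := retract_of Q P hHG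
  exact isom_of_cmp he hAT hG tG hH tH P Q fun T R hW LA LB hA hB =>
    ⟨cmp_retract he hW hA hB hi hr iadd radd hri, cmp_retract he hW hB hA hi' hr' iadd' radd' hri'⟩

/-- `ATR₀` proves (a) and (b) -/
theorem atr_ab {N : L2Structure.{u}} (h : IsModelATR0 N) : StmtA N ∧ StmtB N := by
  haveI := h.rca
  haveI := sig1_of_arithComp h.aca
  exact ⟨stmtA h.atr, stmtB h.atr⟩

end Pool.Agent.W941.UL
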